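import Pool.Agent.Q289.PAM.Torus

/-!
# Random unimodular completely multiplicative functions (Steinhaus), orthogonality
-/

set_option autoImplicit false

open MeasureTheory Filter Topology Set Finset

namespace Pool.Agent.Q255.RM

open Q289.PAM

/-- the completely multiplicative function with the value `e(ω p)` at the prime `p` -/
noncomputable def f (ω : ℕ → UnitAddCircle) (n : ℕ) : ℂ :=
  ∏ p ∈ n.primeFactors, ((ω p).toCircle : ℂ) ^ n.factorization p

/-- exponents as an element of `ℕ →₀ ℤ` -/
noncomputable def fac (n : ℕ) : ℕ →₀ ℤ := n.factorization.mapRange (fun m : ℕ => (m : ℤ)) (by simp)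

lemma fac_apply (n p : ℕ) : fac n p = (n.factorization p : ℤ) := by
  simp [fac]

lemma fac_mul {m n : ℕ} (hm : m ≠ 0) (hn : n ≠ 0) : fac (m * n) = fac m + fac n := by
  ext p
  simp [fac_apply, Nat.factorization_mul hm hn]

lemma fac_inj {m n : ℕ} (hm : m ≠ 0) (hn : n ≠ 0) (h : fac m = fac n) : m = n := by
  apply Nat.eq_of_factorization_eq hm hn
  intro p
  have := DFunLike.congr_fun h p
  simpa [fac_apply] using this

lemma f_eq_chi (ω : ℕ → UnitAddCircle) (n : ℕ) : f ω n = chi (fac n) ω := by
  unfold f chi fac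
  rw [Finsupp.sum_mapRange_index (fun i => zero_zsmul _)]
  unfold Finsupp.sum
  rw [Nat.support_factorization]
  have : (((∑ a ∈ n.primeFactors, (n.factorization a : ℤ) • ω a : UnitAddCircle)).toCircle : ℂ) =
      ∏ a ∈ n.primeFactors, ((((n.factorization a : ℤ) • ω a : UnitAddCircle)).toCircle : ℂ) := by
    induction n.primeFactors using Finset.induction_on with
    | empty => simp
    | insert a s ha ih =>
      rw [Finset.sum_insert ha, Finset.prod_insert ha, AddCircle.toCircle_add, Circle.coe_mul, ih]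
  rw [this]
  refine Finset.prod_congr rfl fun p _ => ?_
  rw [natCast_zsmul, AddCircle.toCircle_nsmul, Circle.coe_pow]

lemma f_one (ω : ℕ → UnitAddCircle) : f ω 1 = 1 := by simp [f]

lemma f_mul (ω : ℕ → UnitAddCircle) {m n : ℕ} (hm : m ≠ 0) (hn : n ≠ 0) :
    f ω (m * n) = f ω m * f ω n := by
  rw [f_eq_chi, f_eq_chi, f_eq_chi, fac_mul hm hn, chi_add]

lemma norm_f (ω : ℕ → UnitAddCircle) (n : ℕ) : ‖f ω n‖ = 1 := by
  rw [f_eq_chi]
  unfold chi
  exact Circle.norm_coe _

lemma f_cont (n : ℕ) : Continuous fun ω => f ω n := by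
  simp_rw [f_eq_chi]
  exact chi_cont _

lemma int_chi (k : ℕ →₀ ℤ) : ∫ ω, chi k ω ∂PT = if k = 0 then 1 else 0 := by
  split_ifs with hk
  · subst hk
    simp [chi_zero]
  · obtain ⟨n, hn⟩ : ∃ n, k n ≠ 0 := by
      by_contra h
      push Not at h
      exact hk (Finsupp.ext h)
    have h := int_chi_zero (A := univ) MeasurableSet.univ (k := k)
      (c := Pi.single n (((1 / (2 * (k n : ℝ)) : ℝ)) : UnitAddCircle)) (by simp) ?_
    · simpa using h
    · have h1 : (k.sum fun m a => a • (Pi.single n (((1 / (2 * (k n : ℝ)) : ℝ)) : UnitAddCircle) : ℕ → UnitAddCircle) m) =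
          k n • (((1 / (2 * (k n : ℝ)) : ℝ)) : UnitAddCircle) := by
        unfold Finsupp.sum
        rw [Finset.sum_eq_single n]
        · simp
        · intro m _ hm
          simp [Pi.single_eq_of_ne hm]
        · intro h
          exact absurd (Finsupp.mem_support_iff.2 hn) h
      unfold chi
      rw [h1, ← AddCircle.coe_zsmul]
      have hnR : (k n : ℝ) ≠ 0 := by exact_mod_cast hn
      have h2 : (k n • (1 / (2 * (k n : ℝ))) : ℝ) = 1 / 2 := by
        rw [zsmul_eq_mul]
        field_simp
      rw [h2]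
      intro h3
      have h4 : AddCircle.toCircle (((1 / 2 : ℝ) : ℝ) : UnitAddCircle) = 1 := by
        apply Circle.ext
        simpa using h3
      rw [AddCircle.toCircle_apply_mk] at h4
      have h5 : Circle.exp (2 * Real.pi / 1 * (1 / 2)) = 1 := h4
      have h6 : (2 * Real.pi / 1 * (1 / 2) : ℝ) = Real.pi := by ring
      rw [h6] at h5
      have h7 := congrArg (fun z : Circle => (z : ℂ)) h5
      simp only [Circle.coe_exp, Circle.coe_one, Complex.exp_pi_mul_I] at h7
      norm_num at h7

lemma chi_sub (k l : ℕ →₀ ℤ) (ω : Om) : chi (k - l) ω = chi k ω * star (chi l ω) := by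
  rw [sub_eq_add_neg, chi_add, chi_neg]

/-- orthogonality -/
lemma orth {a b : ℕ} (ha : a ≠ 0) (hb : b ≠ 0) :
    ∫ ω, f ω a * star (f ω b) ∂PT = if a = b then 1 else 0 := by
  simp_rw [f_eq_chi, ← chi_sub]
  rw [int_chi]
  by_cases h : a = b
  · simp [h]
  · rw [if_neg h, if_neg]
    intro h1
    exact h (fac_inj ha hb (sub_eq_zero.1 h1))

end Pool.Agent.Q255.RM
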