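import Pool.Agent.Q255.RM.Main

/-!
# All real `T`; the mean square of the remainder is at least `T / 200`
-/

set_option autoImplicit false

open MeasureTheory Filter Topology Finset

namespace Pool.Agent.Q255.RM

open Q289.PAM
open Pool.Agent.Q163.PM (bl DD DD_nonneg bl_le)

lemma integrable_unit (k : ℕ) (ω : ℕ → UnitAddCircle) (j : ℕ) :
    IntervalIntegrable (fun t => ‖Z ω t‖ ^ (2 * k) - D k ⌊t⌋₊) volume (j : ℝ) ((j : ℝ) + 1) := by
  have hc : Continuous fun t : ℝ => ‖∑ n ∈ Icc 1 j, f ω n * g t n‖ ^ (2 * k) - D k j := by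
    refine ((continuous_finsetSum _ fun n hn => continuous_const.mul ?_).norm.pow _).sub continuous_const
    rw [Finset.mem_Icc] at hn
    have h : (fun t : ℝ => g t n) = fun t => ((Real.sqrt n)⁻¹ : ℝ) *
        Complex.exp ((-(t * Real.log n) : ℝ) * Complex.I) := funext fun t => g_eq_exp t (by omega)
    rw [h]
    fun_prop
  refine (hc.intervalIntegrable _ _).congr_ae ?_
  rw [Filter.EventuallyEq, ae_restrict_iff' measurableSet_uIoc]
  filter_upwards [ae_floor j] with t ht h2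
  unfold Z
  rw [ht h2]

lemma integrable_nat (k : ℕ) (ω : ℕ → UnitAddCircle) (N : ℕ) :
    IntervalIntegrable (fun t => ‖Z ω t‖ ^ (2 * k) - D k ⌊t⌋₊) volume 0 (N : ℝ) := by
  induction N with
  | zero => simp
  | succ N ih =>
    push_cast
    exact ih.trans (integrable_unit k ω N)

lemma R_nat (k : ℕ) (ω : ℕ → UnitAddCircle) (N : ℕ) : R k ω N = bl (X k ω) 0 N := by
  induction N with
  | zero => simp [R, bl]
  | succ N ih =>
    have h1 : R k ω ((N + 1 : ℕ) : ℝ) = R k ω N + X k ω N := by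
      unfold R X
      push_cast
      rw [intervalIntegral.integral_add_adjacent_intervals (integrable_nat k ω N) (integrable_unit k ω N)]
    rw [h1, ih]
    unfold bl
    rw [Finset.sum_Ico_succ_top (Nat.zero_le _)]

lemma D_nonneg (k N : ℕ) : 0 ≤ D k N := Finset.sum_nonneg fun m _ => by positivity

lemma D_le (k : ℕ) (η : ℝ) (hη : 0 < η) : ∃ C : ℝ, 0 ≤ C ∧ ∀ N : ℕ, 1 ≤ N → D k N ≤ C * (N : ℝ) ^ η := by
  obtain ⟨δ, hδdef⟩ : ∃ δ : ℝ, δ = η / (k * (2 * k + 1) + 1) := ⟨_, rfl⟩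
  have hden : (0 : ℝ) < k * (2 * k + 1) + 1 := by positivity
  have hδ : 0 < δ := by rw [hδdef]; positivity
  obtain ⟨C, hC1, hC⟩ := dk_bound k δ hδ
  refine ⟨C ^ 2 * (1 + 1 / δ), by positivity, fun N hN => ?_⟩
  have hNR : (1 : ℝ) ≤ N := by exact_mod_cast hN
  obtain ⟨M, hM⟩ : ∃ M, M = N ^ k := ⟨_, rfl⟩
  have hM1 : 1 ≤ M := by rw [hM]; exact Nat.one_le_pow _ _ (by omega)
  have hMR : (1 : ℝ) ≤ M := by exact_mod_cast hM1
  have h1 : D k N ≤ ∑ m ∈ Icc 1 M, (C * (M : ℝ) ^ (δ * k)) ^ 2 * (1 / (m : ℝ)) := by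
    unfold D
    rw [← hM]
    refine Finset.sum_le_sum fun m hm => ?_
    rw [div_eq_mul_one_div]
    exact mul_le_mul_of_nonneg_right (pow_le_pow_left₀ (Nat.cast_nonneg _) (hC M N m hm) 2) (by positivity)
  rw [← Finset.mul_sum] at h1
  change D k N ≤ (C * (M : ℝ) ^ (δ * k)) ^ 2 * L M at h1
  have h2 := L_le_rpow δ hδ M hM1
  have h3 := mul_le_mul_of_nonneg_left h2 (by positivity : 0 ≤ (C * (M : ℝ) ^ (δ * k)) ^ 2)
  refine (h1.trans h3).trans ?_
  have h5 : (C * (M : ℝ) ^ (δ * k)) ^ 2 * ((1 + 1 / δ) * (M : ℝ) ^ δ) =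
      C ^ 2 * (1 + 1 / δ) * (M : ℝ) ^ (δ * (2 * k + 1)) := by
    have e1 : (M : ℝ) ^ (δ * (2 * k + 1)) = ((M : ℝ) ^ (δ * k)) ^ 2 * (M : ℝ) ^ δ := by
      rw [← Real.rpow_natCast, ← Real.rpow_mul (by positivity), ← Real.rpow_add (by positivity)]
      congr 1
      push_cast
      ring
    rw [e1]
    ring
  rw [h5]
  refine mul_le_mul_of_nonneg_left ?_ (by positivity)
  have h6 : (M : ℝ) = (N : ℝ) ^ (k : ℝ) := by
    rw [hM, Real.rpow_natCast]
    push_cast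
    rfl
  rw [h6, ← Real.rpow_mul (by positivity)]
  refine Real.rpow_le_rpow_of_exponent_le hNR ?_
  rw [hδdef]
  have e2 : (k : ℝ) * (η / (k * (2 * k + 1) + 1) * (2 * k + 1)) = η * ((k * (2 * k + 1)) / (k * (2 * k + 1) + 1)) := by
    ring
  rw [e2]
  have e3 : ((k : ℝ) * (2 * k + 1)) / (k * (2 * k + 1) + 1) ≤ 1 := by
    rw [div_le_one hden]
    linarith
  nlinarith

/-- **All real `T`, almost every twist.** -/
theorem ae_R (k : ℕ) (ε : ℝ) (hε : 0 < ε) :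
    ∀ᵐ ω ∂PT, ∃ C : ℝ, ∀ T : ℝ, 1 ≤ T → |R k ω T| ≤ C * T ^ (1 / 2 + ε) := by
  obtain ⟨CD, hCD0, hCD⟩ := D_le k (1 / 2) (by norm_num)
  filter_upwards [ae_bl k (ε / 2) (by positivity)] with ω hω
  obtain ⟨C, hC0, hC⟩ := hω
  refine ⟨2 * C + C * 2 ^ (1 / 2 + ε) + 2 * CD, fun T hT => ?_⟩
  obtain ⟨N, hN⟩ : ∃ N, N = ⌊T⌋₊ := ⟨_, rfl⟩
  have hT0 : 0 ≤ T := by linarith
  have h1 : (N : ℝ) ≤ T := by rw [hN]; exact Nat.floor_le hT0
  have h2 : T < N + 1 := by rw [hN]; exact Nat.lt_floor_add_one T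
  have hN1 : 1 ≤ N := by rw [hN]; exact (Nat.one_le_floor_iff T).2 hT
  have hNR : (1 : ℝ) ≤ N := by exact_mod_cast hN1
  have hsub : IntervalIntegrable (fun t => ‖Z ω t‖ ^ (2 * k) - D k ⌊t⌋₊) volume (N : ℝ) T := by
    refine (integrable_unit k ω N).mono_set ?_
    rw [Set.uIcc_of_le h1, Set.uIcc_of_le (by linarith)]
    exact Set.Icc_subset_Icc_right h2.le
  have h3 : R k ω T = bl (X k ω) 0 N + ∫ t in (N : ℝ)..T, (‖Z ω t‖ ^ (2 * k) - D k ⌊t⌋₊) := by
    rw [← R_nat]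
    unfold R
    rw [intervalIntegral.integral_add_adjacent_intervals (integrable_nat k ω N) hsub]
  -- the last piece
  have hDN := D_nonneg k N
  have h4 : |∫ t in (N : ℝ)..T, (‖Z ω t‖ ^ (2 * k) - D k ⌊t⌋₊)| ≤ X k ω N + 2 * D k N := by
    have h5 : |∫ t in (N : ℝ)..T, (‖Z ω t‖ ^ (2 * k) - D k ⌊t⌋₊)| ≤
        ∫ t in (N : ℝ)..T, |‖Z ω t‖ ^ (2 * k) - D k ⌊t⌋₊| :=
      intervalIntegral.abs_integral_le_integral_abs h1
    have h6 : ∫ t in (N : ℝ)..T, |‖Z ω t‖ ^ (2 * k) - D k ⌊t⌋₊| ≤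
        ∫ t in (N : ℝ)..((N : ℝ) + 1), |‖Z ω t‖ ^ (2 * k) - D k ⌊t⌋₊| := by
      refine intervalIntegral.integral_mono_interval le_rfl h1 h2.le (Eventually.of_forall fun t => abs_nonneg _)
        (integrable_unit k ω N).abs
    have h7 : ∫ t in (N : ℝ)..((N : ℝ) + 1), |‖Z ω t‖ ^ (2 * k) - D k ⌊t⌋₊| ≤
        ∫ t in (N : ℝ)..((N : ℝ) + 1), ((‖Z ω t‖ ^ (2 * k) - D k ⌊t⌋₊) + 2 * D k N) := by
      refine intervalIntegral.integral_mono_ae_restrict (by linarith) (integrable_unit k ω N).abs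
        ((integrable_unit k ω N).add intervalIntegrable_const) ?_
      rw [Filter.EventuallyLE, ae_restrict_iff' measurableSet_Icc]
      have hne : ∀ᵐ t : ℝ, t ≠ (N : ℝ) + 1 := by
        rw [ae_iff]
        simp
      filter_upwards [hne] with t ht h8
      have h9 : ⌊t⌋₊ = N := Z_eq ω h8.1 (lt_of_le_of_ne h8.2 ht)
      rw [h9]
      have h10 : 0 ≤ ‖Z ω t‖ ^ (2 * k) := by positivity
      rw [abs_le]
      constructor <;> linarith
    have h8 : ∫ t in (N : ℝ)..((N : ℝ) + 1), ((‖Z ω t‖ ^ (2 * k) - D k ⌊t⌋₊) + 2 * D k N) = X k ω N + 2 * D k N := by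
      rw [intervalIntegral.integral_add (integrable_unit k ω N) intervalIntegrable_const]
      simp [X]
    linarith
  have h5 : X k ω N = bl (X k ω) 0 (N + 1) - bl (X k ω) 0 N := by
    unfold bl
    rw [Finset.sum_Ico_succ_top (Nat.zero_le _)]
    ring
  have h6 := hC N hN1
  have h7 := hC (N + 1) (by omega)
  have h8 := hCD N hN1
  rw [show (1 : ℝ) / 2 + 2 * (ε / 2) = 1 / 2 + ε by ring] at h6 h7
  have e1 : (N : ℝ) ^ (1 / 2 + ε) ≤ T ^ (1 / 2 + ε) := Real.rpow_le_rpow (by positivity) h1 (by positivity)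
  have e2 : ((N + 1 : ℕ) : ℝ) ^ (1 / 2 + ε) ≤ 2 ^ (1 / 2 + ε) * T ^ (1 / 2 + ε) := by
    rw [← Real.mul_rpow (by norm_num) hT0]
    refine Real.rpow_le_rpow (by positivity) ?_ (by positivity)
    push_cast
    linarith
  have e3 : (N : ℝ) ^ (1 / 2 : ℝ) ≤ T ^ (1 / 2 + ε) :=
    (Real.rpow_le_rpow (by positivity) h1 (by norm_num)).trans
      (Real.rpow_le_rpow_of_exponent_le hT (by linarith))
  have a1 : |R k ω T| ≤ |bl (X k ω) 0 N| + (|bl (X k ω) 0 (N + 1)| + |bl (X k ω) 0 N| + 2 * D k N) := by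
    rw [h3]
    refine (abs_add_le _ _).trans ?_
    have := le_abs_self (bl (X k ω) 0 (N + 1))
    have := neg_abs_le (bl (X k ω) 0 N)
    linarith
  have b1 := mul_le_mul_of_nonneg_left e1 hC0
  have b2 := mul_le_mul_of_nonneg_left e2 hC0
  have b3 := mul_le_mul_of_nonneg_left e3 hCD0
  nlinarith

/-! ### Lower bound for the mean square -/

lemma Y_inner (S S' : Finset (ℕ × ℕ)) (c c' : ℕ × ℕ → ℂ) (hS : ∀ x ∈ S, x.1 ≠ 0 ∧ x.2 ≠ 0)
    (hS' : ∀ x ∈ S', x.1 ≠ 0 ∧ x.2 ≠ 0) :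
    ∫ ω, Y S c ω * star (Y S' c' ω) ∂PT =
      ∑ x ∈ S, ∑ y ∈ S', c x * star (c' y) * (if x.1 * y.2 = y.1 * x.2 then 1 else 0) := by
  have h2 : ∀ ω, Y S c ω * star (Y S' c' ω) = ∑ x ∈ S, ∑ y ∈ S', (c x * star (c' y)) *
      ((f ω x.1 * star (f ω x.2)) * star (f ω y.1 * star (f ω y.2))) := by
    intro ω
    unfold Y
    rw [star_sum, Finset.sum_mul_sum]
    refine Finset.sum_congr rfl fun x _ => Finset.sum_congr rfl fun y _ => ?_
    simp only [star_mul']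
    ring
  simp_rw [h2]
  have hc : ∀ x y : ℕ × ℕ, Continuous fun ω => (c x * star (c' y)) *
      ((f ω x.1 * star (f ω x.2)) * star (f ω y.1 * star (f ω y.2))) := fun x y =>
    continuous_const.mul (((f_cont _).mul (f_cont _).star).mul ((f_cont _).mul (f_cont _).star).star)
  rw [integral_finsetSum _ fun x _ => bdd_integrable (continuous_finsetSum _ fun y _ => hc x y)]
  refine Finset.sum_congr rfl fun x hx => ?_
  rw [integral_finsetSum _ fun y _ => bdd_integrable (hc x y)]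
  refine Finset.sum_congr rfl fun y hy => ?_
  rw [integral_const_mul, cross_integral (hS x hx).1 (hS x hx).2 (hS' y hy).1 (hS' y hy).2]

/-- the test pairs -/
def TP (N : ℕ) : Finset (ℕ × ℕ) := ((Icc 1 N).filter fun a => N ≤ 2 * a ∧ 3 * (a + 1) ≤ 2 * N).image fun a => (a, a + 1)

lemma mem_TP {N : ℕ} {x : ℕ × ℕ} : x ∈ TP N ↔ 1 ≤ x.1 ∧ N ≤ 2 * x.1 ∧ 3 * (x.1 + 1) ≤ 2 * N ∧ x.2 = x.1 + 1 := by
  unfold TP
  rw [Finset.mem_image]
  constructor
  · rintro ⟨a, ha, rfl⟩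
    rw [Finset.mem_filter, Finset.mem_Icc] at ha
    exact ⟨ha.1.1, ha.2.1, ha.2.2, rfl⟩
  · rintro ⟨h1, h2, h3, h4⟩
    refine ⟨x.1, ?_, Prod.ext rfl h4.symm⟩
    rw [Finset.mem_filter, Finset.mem_Icc]
    omega

lemma card_TP (N : ℕ) (hN : 24 ≤ N) : (N : ℝ) / 12 ≤ (TP N).card := by
  have h1 : (TP N).card = ((Icc 1 N).filter fun a => N ≤ 2 * a ∧ 3 * (a + 1) ≤ 2 * N).card := by
    unfold TP
    refine Finset.card_image_of_injective _ fun a b h => ?_
    simpa using (Prod.mk.inj h).1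
  have h2 : Icc ((N + 1) / 2) (2 * N / 3 - 1) ⊆ ((Icc 1 N).filter fun a => N ≤ 2 * a ∧ 3 * (a + 1) ≤ 2 * N) := by
    intro a ha
    rw [Finset.mem_Icc] at ha
    rw [Finset.mem_filter, Finset.mem_Icc]
    omega
  have h3 := Finset.card_le_card h2
  rw [Nat.card_Icc] at h3
  rw [h1]
  have h4 : N ≤ 12 * ((Icc 1 N).filter fun a => N ≤ 2 * a ∧ 3 * (a + 1) ≤ 2 * N).card := by omega
  have h5 : (N : ℝ) ≤ 12 * (((Icc 1 N).filter fun a => N ≤ 2 * a ∧ 3 * (a + 1) ≤ 2 * N).card : ℝ) := by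
    exact_mod_cast h4
  linarith

lemma TP_norm (N : ℕ) : ∫ ω, Y (TP N) (fun _ => 1) ω * star (Y (TP N) (fun _ => 1) ω) ∂PT = ((TP N).card : ℂ) := by
  have hS : ∀ x ∈ TP N, x.1 ≠ 0 ∧ x.2 ≠ 0 := fun x hx => by
    rw [mem_TP] at hx
    omega
  rw [Y_inner _ _ _ _ hS hS]
  have h1 : ∀ x ∈ TP N, ∑ y ∈ TP N, (1 : ℂ) * star (1 : ℂ) * (if x.1 * y.2 = y.1 * x.2 then 1 else 0) = 1 := by
    intro x hx
    rw [Finset.sum_eq_single x]
    · simp
    · intro y hy hne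
      rw [mem_TP] at hx hy
      have h2 : ¬ x.1 * y.2 = y.1 * x.2 := by
        intro h
        rw [hx.2.2.2, hy.2.2.2] at h
        have h3 : x.1 = y.1 := by nlinarith
        exact hne (Prod.ext h3.symm (by omega))
      rw [if_neg h2, mul_zero]
    · intro h
      exact absurd hx h
  rw [Finset.sum_congr rfl h1]
  simp

/-- imaginary part of the primitive on a unit interval -/
lemma im_unit {x : ℕ × ℕ} (h1 : x.1 ≠ 0) (h2 : x.2 ≠ 0) (A : ℝ) (j : ℕ) :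
    (J x A ((j + 1 : ℕ) : ℝ) - J x A j).im = ∫ t in (j : ℝ)..((j : ℝ) + 1),
      (Real.sqrt x.1)⁻¹ * (Real.sqrt x.2)⁻¹ * Real.sin (t * (Real.log x.2 - Real.log x.1)) := by
  rw [J_sub h1 h2]
  push_cast
  have h3 : (∫ t in (j : ℝ)..((j : ℝ) + 1), E x t).im = ∫ t in (j : ℝ)..((j : ℝ) + 1), (E x t).im := by
    have h4 := (E_cont h1 h2).intervalIntegrable (μ := volume) (j : ℝ) ((j : ℝ) + 1)
    exact (Complex.imCLM.intervalIntegral_comp_comm h4).symm
  rw [h3]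
  refine intervalIntegral.integral_congr fun t _ => ?_
  rw [E_eq h1 h2, Complex.im_ofReal_mul, Complex.exp_ofReal_mul_I_im]

/-- size of `log` of the ratio of neighbours -/
lemma log_ratio {a : ℕ} (ha : 1 ≤ a) : 1 / ((a : ℝ) + 1) ≤ Real.log ((a : ℝ) + 1) - Real.log a ∧
    Real.log ((a : ℝ) + 1) - Real.log a ≤ 1 / a := by
  have h0 : (0 : ℝ) < a := by exact_mod_cast ha
  rw [← Real.log_div (by positivity) (by positivity)]
  constructor
  · have := Real.one_sub_inv_le_log_of_pos (show (0 : ℝ) < ((a : ℝ) + 1) / a by positivity)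
    refine le_trans (le_of_eq ?_) this
    rw [inv_div]
    field_simp
    ring
  · have := Real.log_le_sub_one_of_pos (show (0 : ℝ) < ((a : ℝ) + 1) / a by positivity)
    refine this.trans (le_of_eq ?_)
    field_simp
    ring

lemma cross_log {x y : ℕ × ℕ} (h1 : x.1 ≠ 0) (h2 : x.2 ≠ 0) (hy1 : 1 ≤ y.1) (hy2 : y.2 = y.1 + 1)
    (h : x.1 * y.2 = y.1 * x.2) :
    Real.log x.2 - Real.log x.1 = Real.log ((y.1 : ℝ) + 1) - Real.log y.1 := by
  have p1 : (0 : ℝ) < x.1 := by exact_mod_cast Nat.pos_of_ne_zero h1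
  have p2 : (0 : ℝ) < x.2 := by exact_mod_cast Nat.pos_of_ne_zero h2
  have p3 : (0 : ℝ) < y.1 := by exact_mod_cast hy1
  rw [← Real.log_div p2.ne' p1.ne', ← Real.log_div (by positivity) p3.ne']
  congr 1
  rw [div_eq_div_iff p1.ne' p3.ne']
  rw [hy2] at h
  have h' : (x.1 : ℝ) * ((y.1 : ℝ) + 1) = y.1 * x.2 := by exact_mod_cast h
  linarith

/-- nonnegative imaginary parts -/
lemma im_cf_nonneg (k N : ℕ) {x y : ℕ × ℕ} (h1 : x.1 ≠ 0) (h2 : x.2 ≠ 0) (hy : y ∈ TP N)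
    (h : x.1 * y.2 = y.1 * x.2) : 0 ≤ (cf k 0 N x).im := by
  rw [mem_TP] at hy
  obtain ⟨hy1, hy2, hy3, hy4⟩ := hy
  have hlog := cross_log h1 h2 hy1 hy4 h
  obtain ⟨l1, l2⟩ := log_ratio hy1
  have p3 : (0 : ℝ) < y.1 := by exact_mod_cast hy1
  unfold cf
  rw [Complex.im_sum]
  refine Finset.sum_nonneg fun j hj => ?_
  rw [Finset.mem_Ico] at hj
  rw [Complex.im_ofReal_mul]
  refine mul_nonneg (Nat.cast_nonneg _) ?_
  rw [im_unit h1 h2]
  refine intervalIntegral.integral_nonneg (by linarith) fun t ht => ?_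
  refine mul_nonneg (by positivity) ?_
  rw [hlog]
  have ht0 : 0 ≤ t := le_trans (Nat.cast_nonneg _) ht.1
  have hjN : (j : ℝ) + 1 ≤ N := by exact_mod_cast hj.2
  have hN : (N : ℝ) ≤ 2 * y.1 := by exact_mod_cast hy2
  refine Real.sin_nonneg_of_nonneg_of_le_pi (mul_nonneg ht0 (le_trans (by positivity) l1)) ?_
  calc t * (Real.log ((y.1 : ℝ) + 1) - Real.log y.1) ≤ (2 * y.1) * (1 / y.1) := by
        refine mul_le_mul (by linarith [ht.2]) l2 (le_trans (by positivity) l1) (by positivity)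
    _ = 2 := by field_simp
    _ ≤ Real.pi := by linarith [Real.pi_gt_three]

lemma sin_ge {x : ℝ} (h1 : 1 ≤ x) (h2 : x ≤ 2) : 3 / 5 ≤ Real.sin x := by
  have hpi := Real.pi_gt_three
  have hpi2 := Real.pi_lt_d2
  have hpi0 := Real.pi_pos
  rcases le_total x (Real.pi / 2) with h | h
  · have := Real.mul_le_sin (by linarith) h
    refine le_trans ?_ this
    rw [div_mul_eq_mul_div, le_div_iff₀ hpi0]
    linarith
  · rw [← Real.sin_pi_sub]
    have := Real.mul_le_sin (x := Real.pi - x) (by linarith) (by linarith)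
    refine le_trans ?_ this
    rw [div_mul_eq_mul_div, le_div_iff₀ hpi0]
    linarith

lemma one_le_dk (k N : ℕ) (hk : 1 ≤ k) {m : ℕ} (hm1 : 1 ≤ m) (hm : m ≤ N) : 1 ≤ dk k N m := by
  unfold dk
  rw [Nat.one_le_iff_ne_zero, ← Nat.pos_iff_ne_zero, Finset.card_pos]
  obtain ⟨k, rfl⟩ : ∃ k', k = k' + 1 := ⟨k - 1, by omega⟩
  refine ⟨Function.update (fun _ => 1) 0 m, ?_⟩
  rw [Finset.mem_filter, Fintype.mem_piFinset]
  constructor
  · intro i
    rw [Finset.mem_Icc]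
    by_cases hi : i = 0
    · subst hi
      simp only [Function.update_self]
      exact ⟨hm1, hm⟩
    · rw [Function.update_of_ne hi]
      exact ⟨le_rfl, by omega⟩
  · rw [Finset.prod_update_of_mem (Finset.mem_univ _)]
    simp

lemma im_cf_ge (k N : ℕ) (hk : 1 ≤ k) {y : ℕ × ℕ} (hy : y ∈ TP N) : 3 / 10 ≤ (cf k 0 N y).im := by
  have hyy := mem_TP.1 hy
  obtain ⟨hy1, hy2, hy3, hy4⟩ := hyy
  obtain ⟨l1, l2⟩ := log_ratio hy1
  have p3 : (0 : ℝ) < y.1 := by exact_mod_cast hy1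
  have hN : (N : ℝ) ≤ 2 * y.1 := by exact_mod_cast hy2
  have hN3 : 3 * ((y.1 : ℝ) + 1) ≤ 2 * N := by exact_mod_cast hy3
  have hlog : Real.log y.2 - Real.log y.1 = Real.log ((y.1 : ℝ) + 1) - Real.log y.1 := by
    rw [hy4]
    push_cast
    rfl
  have hs : 1 / ((y.1 : ℝ) + 1) ≤ (Real.sqrt y.1)⁻¹ * (Real.sqrt y.2)⁻¹ := by
    rw [← mul_inv, one_div]
    refine inv_anti₀ (by rw [hy4]; positivity) ?_
    rw [← Real.sqrt_mul (Nat.cast_nonneg _), hy4]
    push_cast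
    refine (Real.sqrt_le_sqrt (by nlinarith : (y.1 : ℝ) * (y.1 + 1) ≤ (y.1 + 1) ^ 2)).trans ?_
    rw [Real.sqrt_sq (by positivity)]
  unfold cf
  rw [Complex.im_sum]
  simp only [Nat.cast_zero]
  have hpos : ∀ j ∈ Ico 0 N, 0 ≤ ((((dk k j y.1 * dk k j y.2 : ℕ) : ℝ) : ℂ) * (J y 0 ((j + 1 : ℕ) : ℝ) - J y 0 j)).im := by
    intro j hj
    rw [Finset.mem_Ico] at hj
    rw [Complex.im_ofReal_mul]
    refine mul_nonneg (Nat.cast_nonneg _) ?_
    rw [im_unit (by omega) (by omega)]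
    refine intervalIntegral.integral_nonneg (by linarith) fun t ht => ?_
    refine mul_nonneg (by positivity) ?_
    rw [hlog]
    have ht0 : 0 ≤ t := le_trans (Nat.cast_nonneg _) ht.1
    have hjN : (j : ℝ) + 1 ≤ N := by exact_mod_cast hj.2
    refine Real.sin_nonneg_of_nonneg_of_le_pi (mul_nonneg ht0 (le_trans (by positivity) l1)) ?_
    calc t * (Real.log ((y.1 : ℝ) + 1) - Real.log y.1) ≤ (2 * y.1) * (1 / y.1) := by
          refine mul_le_mul (by linarith [ht.2]) l2 (le_trans (by positivity) l1) (by positivity)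
      _ = 2 := by field_simp
      _ ≤ Real.pi := by linarith [Real.pi_gt_three]
  have hsub : Ico (y.1 + 1) N ⊆ Ico 0 N := Finset.Ico_subset_Ico_left (Nat.zero_le _)
  have hcount : (N : ℝ) / 3 ≤ (Ico (y.1 + 1) N).card := by
    rw [Nat.card_Ico]
    have h1 : y.1 + 1 ≤ N := by omega
    rw [Nat.cast_sub h1]
    push_cast
    linarith
  have hterm : ∀ j ∈ Ico (y.1 + 1) N, 1 / ((y.1 : ℝ) + 1) * (3 / 5) ≤
      ((((dk k j y.1 * dk k j y.2 : ℕ) : ℝ) : ℂ) * (J y 0 ((j + 1 : ℕ) : ℝ) - J y 0 j)).im := by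
    intro j hj
    rw [Finset.mem_Ico] at hj
    rw [Complex.im_ofReal_mul]
    have d1 : 1 ≤ dk k j y.1 * dk k j y.2 :=
      Nat.one_le_iff_ne_zero.2 (mul_ne_zero (by have := one_le_dk k j hk hy1 (by omega); omega)
        (by have := one_le_dk k j hk (m := y.2) (by omega) (by omega); omega))
    have d1R : (1 : ℝ) ≤ ((dk k j y.1 * dk k j y.2 : ℕ) : ℝ) := by exact_mod_cast d1
    have hint : 1 / ((y.1 : ℝ) + 1) * (3 / 5) ≤ (J y 0 ((j + 1 : ℕ) : ℝ) - J y 0 j).im := by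
      rw [im_unit (by omega) (by omega)]
      have h1 : ∫ t in (j : ℝ)..((j : ℝ) + 1), (1 / ((y.1 : ℝ) + 1) * (3 / 5) : ℝ) = 1 / ((y.1 : ℝ) + 1) * (3 / 5) := by
        simp
      rw [← h1]
      refine intervalIntegral.integral_mono_on (by linarith) intervalIntegrable_const
        (Continuous.intervalIntegrable (by fun_prop) _ _) fun t ht => ?_
      refine mul_le_mul hs ?_ (by norm_num) (by positivity)
      rw [hlog]
      have hjN : (j : ℝ) + 1 ≤ N := by exact_mod_cast hj.2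
      have hj1 : (y.1 : ℝ) + 1 ≤ j := by exact_mod_cast hj.1
      refine sin_ge ?_ ?_
      · calc (1 : ℝ) = ((y.1 : ℝ) + 1) * (1 / ((y.1 : ℝ) + 1)) := by field_simp
          _ ≤ t * (Real.log ((y.1 : ℝ) + 1) - Real.log y.1) :=
            mul_le_mul (by linarith [ht.1]) l1 (by positivity) (by linarith [ht.1])
      · calc t * (Real.log ((y.1 : ℝ) + 1) - Real.log y.1) ≤ (2 * y.1) * (1 / y.1) := by
              refine mul_le_mul (by linarith [ht.2]) l2 (le_trans (by positivity) l1) (by positivity)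
          _ = 2 := by field_simp
    have h0 : 0 ≤ (J y 0 ((j + 1 : ℕ) : ℝ) - J y 0 j).im := le_trans (by positivity) hint
    nlinarith
  calc (3 : ℝ) / 10 ≤ (Ico (y.1 + 1) N).card • (1 / ((y.1 : ℝ) + 1) * (3 / 5)) := by
        rw [nsmul_eq_mul]
        have h1 : (N : ℝ) / 3 * (1 / ((y.1 : ℝ) + 1) * (3 / 5)) ≤
            ((Ico (y.1 + 1) N).card : ℝ) * (1 / ((y.1 : ℝ) + 1) * (3 / 5)) :=
          mul_le_mul_of_nonneg_right hcount (by positivity)
        refine le_trans ?_ h1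
        have h2 : (N : ℝ) / 3 * (1 / ((y.1 : ℝ) + 1) * (3 / 5)) = (N / 5) / ((y.1 : ℝ) + 1) := by
          field_simp
          try ring
        rw [h2, le_div_iff₀ (by positivity)]
        linarith
    _ ≤ ∑ j ∈ Ico (y.1 + 1) N, ((((dk k j y.1 * dk k j y.2 : ℕ) : ℝ) : ℂ) * (J y 0 ((j + 1 : ℕ) : ℝ) - J y 0 j)).im :=
        Finset.card_nsmul_le_sum _ _ _ hterm
    _ ≤ _ := Finset.sum_le_sum_of_subset_of_nonneg hsub fun j hj _ => hpos j hj

/-- **The mean square over all twists of the remainder is at least `N / 200`.** -/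
theorem mean_square_ge (k N : ℕ) (hk : 1 ≤ k) (hN : 24 ≤ N) :
    (N : ℝ) / 200 ≤ ∫ ω, R k ω N ^ 2 ∂PT := by
  obtain ⟨M, hM⟩ : ∃ M, M = N ^ k := ⟨_, rfl⟩
  have hNM : N ≤ M := by
    rw [hM]
    calc N = N ^ 1 := (pow_one N).symm
      _ ≤ N ^ k := Nat.pow_le_pow_right (by omega) hk
  have hS : ∀ x ∈ OD M, x.1 ≠ 0 ∧ x.2 ≠ 0 := fun x hx => by
    rw [mem_OD] at hx
    omega
  have hS' : ∀ x ∈ TP N, x.1 ≠ 0 ∧ x.2 ≠ 0 := fun x hx => by
    rw [mem_TP] at hx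
    omega
  have hR : ∀ ω, ((R k ω N : ℝ) : ℂ) = Y (OD M) (cf k 0 N) ω := fun ω => by
    rw [R_nat]
    exact bl_eq k ω 0 N M hM.ge
  obtain ⟨S, hSdef⟩ : ∃ S : (ℕ → UnitAddCircle) → ℂ, S = Y (TP N) (fun _ => 1) := ⟨_, rfl⟩
  have hScont : Continuous S := by rw [hSdef]; exact Y_cont _ _
  obtain ⟨W, hW⟩ : ∃ W : ℂ, W = ∫ ω, Y (OD M) (cf k 0 N) ω * star (S ω) ∂PT := ⟨_, rfl⟩
  have hW1 : W = ∑ x ∈ OD M, ∑ y ∈ TP N, cf k 0 N x * star (1 : ℂ) * (if x.1 * y.2 = y.1 * x.2 then 1 else 0) := by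
    rw [hW, hSdef]
    exact Y_inner _ _ _ _ hS hS'
  have hWim : (3 / 10 : ℝ) * (TP N).card ≤ W.im := by
    rw [hW1, Finset.sum_comm, Complex.im_sum]
    have h1 : ∀ y ∈ TP N, (3 / 10 : ℝ) ≤
        (∑ x ∈ OD M, cf k 0 N x * star (1 : ℂ) * (if x.1 * y.2 = y.1 * x.2 then 1 else 0)).im := by
      intro y hy
      rw [Complex.im_sum]
      have hyM : y ∈ OD M := by
        have hyy := mem_TP.1 hy
        rw [mem_OD]
        omega
      refine (im_cf_ge k N hk hy).trans ?_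
      have h2 : (cf k 0 N y).im = (cf k 0 N y * star (1 : ℂ) * (if y.1 * y.2 = y.1 * y.2 then 1 else 0)).im := by
        simp
      rw [h2]
      refine Finset.single_le_sum (f := fun x => (cf k 0 N x * star (1 : ℂ) * (if x.1 * y.2 = y.1 * x.2 then 1 else 0)).im)
        (fun x hx => ?_) hyM
      by_cases h : x.1 * y.2 = y.1 * x.2
      · simp only [h, if_true, star_one, mul_one]
        exact im_cf_nonneg k N (hS x hx).1 (hS x hx).2 hy h
      · simp [h]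
    have h3 := Finset.card_nsmul_le_sum _ _ _ h1
    rw [nsmul_eq_mul] at h3
    linarith
  -- the square
  have hcont : Continuous fun ω => R k ω N := by
    have : (fun ω => R k ω N) = fun ω => bl (X k ω) 0 N := funext fun ω => R_nat k ω N
    rw [this]
    exact bl_cont k 0 N
  have hnorm : ∫ ω, ‖S ω‖ ^ 2 ∂PT = (TP N).card := by
    have h1 : ((∫ ω, ‖S ω‖ ^ 2 ∂PT : ℝ) : ℂ) = ((TP N).card : ℂ) := by
      rw [← TP_norm N, ← hSdef, ← integral_complex_ofReal]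
      congr 1
      ext ω
      rw [Complex.star_def, Complex.mul_conj, Complex.normSq_eq_norm_sq]
    exact_mod_cast h1
  have hcross : ∫ ω, (R k ω N) * (S ω).im ∂PT = -W.im := by
    have h1 : W = ∫ ω, ((R k ω N : ℝ) : ℂ) * star (S ω) ∂PT := by
      rw [hW]
      simp_rw [hR]
    have hi : Integrable (fun ω => ((R k ω N : ℝ) : ℂ) * star (S ω)) PT :=
      bdd_integrable ((Complex.continuous_ofReal.comp hcont).mul hScont.star)
    have h2 : W.im = ∫ ω, (((R k ω N : ℝ) : ℂ) * star (S ω)).im ∂PT := by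
      rw [h1]
      exact (integral_im hi).symm
    rw [h2, ← integral_neg]
    congr 1
    ext ω
    rw [Complex.im_ofReal_mul, Complex.star_def, Complex.conj_im]
    ring
  have hexp : ∀ ω, 0 ≤ R k ω N ^ 2 + 2 * (3 / 10) * (R k ω N * (S ω).im) + (3 / 10) ^ 2 * ‖S ω‖ ^ 2 := by
    intro ω
    have h1 : (S ω).im ^ 2 ≤ ‖S ω‖ ^ 2 := by
      rw [← sq_abs (S ω).im]
      exact pow_le_pow_left₀ (abs_nonneg _) (Complex.abs_im_le_norm _) 2
    nlinarith [sq_nonneg (R k ω N + (3 / 10) * (S ω).im)]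
  have i1 : Integrable (fun ω => R k ω N ^ 2) PT := integrable_of_cont (hcont.pow 2)
  have i2 : Integrable (fun ω => 2 * (3 / 10) * (R k ω N * (S ω).im)) PT :=
    integrable_of_cont (continuous_const.mul (hcont.mul (Complex.continuous_im.comp hScont)))
  have i3 : Integrable (fun ω => (3 / 10 : ℝ) ^ 2 * ‖S ω‖ ^ 2) PT :=
    integrable_of_cont (continuous_const.mul (hScont.norm.pow 2))
  have hint : 0 ≤ ∫ ω, (R k ω N ^ 2 + 2 * (3 / 10) * (R k ω N * (S ω).im) + (3 / 10) ^ 2 * ‖S ω‖ ^ 2) ∂PT :=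
    integral_nonneg hexp
  have i12 : Integrable (fun ω => R k ω N ^ 2 + 2 * (3 / 10) * (R k ω N * (S ω).im)) PT := i1.add i2
  rw [integral_add i12 i3, integral_add i1 i2, integral_const_mul, integral_const_mul, hcross, hnorm] at hint
  have hc := card_TP N hN
  linarith

end Pool.Agent.Q255.RM
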