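import Pool.Agent.Q255.RM.Poly
import Pool.Agent.Q163.PM.Mens

/-!
# Mean squares of the increments of the remainder
-/

set_option autoImplicit false

open MeasureTheory Filter Topology Finset

namespace Pool.Agent.Q255.RM

open Q289.PAM
open Pool.Agent.Q163.PM (bl DD)

/-- the increment of the remainder over `[j, j + 1]` -/
noncomputable def X (k : ℕ) (ω : ℕ → UnitAddCircle) (j : ℕ) : ℝ :=
  ∫ t in (j : ℝ)..(j + 1 : ℝ), (‖Z ω t‖ ^ (2 * k) - D k ⌊t⌋₊)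

lemma norm_pow_eq (z : ℂ) (k : ℕ) : ((‖z‖ ^ (2 * k) : ℝ) : ℂ) = z ^ k * star (z ^ k) := by
  rw [Complex.star_def, Complex.mul_conj, Complex.normSq_eq_norm_sq, norm_pow, ← pow_mul, mul_comm]

lemma f_mul_star (ω : ℕ → UnitAddCircle) (n : ℕ) : f ω n * star (f ω n) = 1 := by
  rw [Complex.star_def, Complex.mul_conj, Complex.normSq_eq_norm_sq, norm_f]
  simp

lemma integrand_eq (k : ℕ) (ω : ℕ → UnitAddCircle) (N M : ℕ) (hM : N ^ k ≤ M) (t : ℝ) :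
    ((‖∑ n ∈ Icc 1 N, f ω n * g t n‖ ^ (2 * k) - D k N : ℝ) : ℂ) =
      ∑ x ∈ OD M, ((dk k N x.1 : ℂ) * dk k N x.2) * (f ω x.1 * star (f ω x.2)) * E x t := by
  have h1 : ((‖∑ n ∈ Icc 1 N, f ω n * g t n‖ ^ (2 * k) : ℝ) : ℂ) =
      ∑ x ∈ (Icc 1 M) ×ˢ (Icc 1 M), ((dk k N x.1 : ℂ) * dk k N x.2) * (f ω x.1 * star (f ω x.2)) * E x t := by
    rw [norm_pow_eq, pow_expand, sum_extend k N M hM, star_sum, Finset.sum_mul_sum, Finset.sum_product]
    refine Finset.sum_congr rfl fun m _ => Finset.sum_congr rfl fun n _ => ?_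
    unfold E
    simp only [star_mul', star_natCast]
    ring
  have h2 : ((D k N : ℝ) : ℂ) = ∑ x ∈ ((Icc 1 M) ×ˢ (Icc 1 M)).filter (fun x => ¬ x.1 ≠ x.2),
      ((dk k N x.1 : ℂ) * dk k N x.2) * (f ω x.1 * star (f ω x.2)) * E x t := by
    unfold D
    have h3 : ((∑ m ∈ Icc 1 (N ^ k), (dk k N m : ℝ) ^ 2 / m : ℝ) : ℂ) =
        ∑ m ∈ Icc 1 M, (dk k N m : ℂ) * ((dk k N m : ℂ) / m) := by
      rw [← sum_extend k N M hM]
      push_cast
      refine Finset.sum_congr rfl fun m _ => ?_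
      ring
    rw [h3]
    refine Finset.sum_bij' (fun m _ => (m, m)) (fun x _ => x.1) ?_ ?_ ?_ ?_ ?_
    · intro m hm
      rw [Finset.mem_filter, Finset.mem_product]
      exact ⟨⟨hm, hm⟩, by simp⟩
    · intro x hx
      rw [Finset.mem_filter, Finset.mem_product] at hx
      exact hx.1.1
    · intro m _; rfl
    · intro x hx
      rw [Finset.mem_filter] at hx
      have := hx.2
      push Not at this
      exact Prod.ext rfl this
    · intro m hm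
      rw [Finset.mem_Icc] at hm
      simp only
      rw [E_diag (by omega), f_mul_star]
      push_cast
      ring
  push_cast at h1 h2 ⊢
  rw [h1, h2]
  unfold OD
  rw [← Finset.sum_filter_add_sum_filter_not ((Icc 1 M) ×ˢ (Icc 1 M)) (fun x : ℕ × ℕ => x.1 ≠ x.2)]
  simp

/-- the integrand on `[j, j + 1)` -/
lemma Z_eq (ω : ℕ → UnitAddCircle) {j : ℕ} {t : ℝ} (h1 : (j : ℝ) ≤ t) (h2 : t < j + 1) :
    ⌊t⌋₊ = j := by
  rw [Nat.floor_eq_iff (le_trans (Nat.cast_nonneg _) h1)]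
  exact ⟨h1, h2⟩

lemma ae_floor (j : ℕ) : ∀ᵐ t : ℝ, t ∈ Set.uIoc (j : ℝ) (j + 1) → ⌊t⌋₊ = j := by
  have h : ∀ᵐ t : ℝ, t ≠ j + 1 := by
    rw [ae_iff]
    simp
  filter_upwards [h] with t ht h1
  rw [Set.uIoc_of_le (by linarith)] at h1
  exact Z_eq (fun _ => 0) h1.1.le (lt_of_le_of_ne h1.2 ht)

lemma X_eq (k : ℕ) (ω : ℕ → UnitAddCircle) (j M : ℕ) (hM : j ^ k ≤ M) (A : ℝ) :
    (X k ω j : ℂ) = Y (OD M) (fun x => ((dk k j x.1 * dk k j x.2 : ℕ) : ℝ) * (J x A ((j + 1 : ℕ) : ℝ) - J x A j)) ω := by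
  unfold X
  rw [← intervalIntegral.integral_ofReal]
  have h1 : ∫ t in (j : ℝ)..(j + 1 : ℝ), ((‖Z ω t‖ ^ (2 * k) - D k ⌊t⌋₊ : ℝ) : ℂ) =
      ∫ t in (j : ℝ)..(j + 1 : ℝ), ∑ x ∈ OD M, ((dk k j x.1 : ℂ) * dk k j x.2) * (f ω x.1 * star (f ω x.2)) * E x t := by
    refine intervalIntegral.integral_congr_ae ?_
    filter_upwards [ae_floor j] with t ht h2
    have h3 := ht h2
    unfold Z
    rw [h3]
    exact integrand_eq k ω j M hM t
  rw [h1, intervalIntegral.integral_finset_sum]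
  · unfold Y
    refine Finset.sum_congr rfl fun x hx => ?_
    rw [mem_OD] at hx
    have e1 := J_sub (x := x) (by omega) (by omega) A (j : ℝ) ((j + 1 : ℕ) : ℝ)
    simp only
    rw [intervalIntegral.integral_const_mul, e1]
    push_cast
    ring
  · intro x hx
    rw [mem_OD] at hx
    exact (continuous_const.mul (E_cont (by omega) (by omega))).intervalIntegrable _ _

/-- coefficients of the increments -/
noncomputable def cf (k A B : ℕ) (x : ℕ × ℕ) : ℂ :=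
  ∑ j ∈ Ico A B, (((dk k j x.1 * dk k j x.2 : ℕ) : ℝ) : ℂ) * (J x A ((j + 1 : ℕ) : ℝ) - J x A j)

lemma bl_eq (k : ℕ) (ω : ℕ → UnitAddCircle) (A B M : ℕ) (hM : B ^ k ≤ M) :
    ((bl (X k ω) A B : ℝ) : ℂ) = Y (OD M) (cf k A B) ω := by
  unfold bl
  push_cast
  have h1 : ∀ j ∈ Ico A B, (X k ω j : ℂ) =
      Y (OD M) (fun x => ((dk k j x.1 * dk k j x.2 : ℕ) : ℝ) * (J x A ((j + 1 : ℕ) : ℝ) - J x A j)) ω := by
    intro j hj
    rw [Finset.mem_Ico] at hj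
    exact X_eq k ω j M ((Nat.pow_le_pow_left hj.2.le k).trans hM) A
  rw [Finset.sum_congr rfl h1]
  unfold Y cf
  rw [Finset.sum_comm]
  refine Finset.sum_congr rfl fun x _ => ?_
  rw [Finset.sum_mul]

lemma norm_cf_sq (k A B : ℕ) (hAB : A ≤ B) {x : ℕ × ℕ} (h1 : x.1 ≠ 0) (h2 : x.2 ≠ 0) (hne : x.1 ≠ x.2)
    (K : ℝ) (hK1 : (dk k B x.1 : ℝ) ≤ K) (hK2 : (dk k B x.2 : ℝ) ≤ K) :
    ‖cf k A B x‖ ^ 2 ≤ 8 * K ^ 4 * (B - A) * wt x := by
  have p1 : (0 : ℝ) < x.1 := by exact_mod_cast Nat.pos_of_ne_zero h1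
  have p2 : (0 : ℝ) < x.2 := by exact_mod_cast Nat.pos_of_ne_zero h2
  have hneR : (x.1 : ℝ) ≠ x.2 := by exact_mod_cast hne
  have h6 : 0 < |(x.1 : ℝ) - x.2| := abs_pos.2 (sub_ne_zero.2 hneR)
  have h7 : 0 < max (x.1 : ℝ) x.2 := lt_max_of_lt_left p1
  have hABR : (A : ℝ) ≤ B := by exact_mod_cast hAB
  have hK0 : 0 ≤ K := (Nat.cast_nonneg _).trans hK1
  obtain ⟨s, hs⟩ : ∃ s : ℝ, s = (Real.sqrt x.1)⁻¹ * (Real.sqrt x.2)⁻¹ := ⟨_, rfl⟩
  have hs0 : 0 ≤ s := by rw [hs]; positivity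
  obtain ⟨q, hq⟩ : ∃ q : ℝ, q = 2 * (max (x.1 : ℝ) x.2) / |(x.1 : ℝ) - x.2| := ⟨_, rfl⟩
  have hq0 : 0 ≤ q := by rw [hq]; positivity
  have hbound := abel_bound (fun j => ((dk k j x.1 * dk k j x.2 : ℕ) : ℝ))
    (fun a b hab => by
      simp only
      exact_mod_cast Nat.mul_le_mul (dk_mono k x.1 hab) (dk_mono k x.2 hab))
    (fun j => Nat.cast_nonneg _) (fun j => J x A j) A (J_self x A) (s * min ((B : ℝ) - A) q) B hAB (by
      intro j hj1 hj2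
      have hj1R : (A : ℝ) ≤ j := by exact_mod_cast hj1
      have hj2R : (j : ℝ) ≤ B := by exact_mod_cast hj2
      rcases min_choice ((B : ℝ) - A) q with h | h
      · rw [h]
        refine (norm_J_le_length h1 h2 hj1R).trans ?_
        rw [hs]
        exact mul_le_mul_of_nonneg_left (by linarith) (by positivity)
      · rw [h, hs, hq]
        exact norm_J_le_inv h1 h2 hne A j)
  have h8 : ‖cf k A B x‖ ≤ 2 * K ^ 2 * (s * min ((B : ℝ) - A) q) := by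
    refine hbound.trans ?_
    have h9 : (0 : ℝ) ≤ s * min ((B : ℝ) - A) q := mul_nonneg hs0 (le_min (by linarith) hq0)
    refine mul_le_mul_of_nonneg_right ?_ h9
    push_cast
    have h10 : (dk k B x.1 : ℝ) * dk k B x.2 ≤ K * K := mul_le_mul hK1 hK2 (Nat.cast_nonneg _) hK0
    nlinarith
  have h11 : min ((B : ℝ) - A) q ^ 2 ≤ (B - A) * q := by
    have h12 : 0 ≤ min ((B : ℝ) - A) q := le_min (by linarith) hq0
    rw [sq]
    exact mul_le_mul (min_le_left _ _) (min_le_right _ _) h12 (by linarith)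
  have h13 : s ^ 2 = 1 / ((x.1 : ℝ) * x.2) := by
    rw [hs, mul_pow, inv_pow, inv_pow, Real.sq_sqrt p1.le, Real.sq_sqrt p2.le]
    field_simp
  calc ‖cf k A B x‖ ^ 2 ≤ (2 * K ^ 2 * (s * min ((B : ℝ) - A) q)) ^ 2 := pow_le_pow_left₀ (norm_nonneg _) h8 2
    _ = 4 * K ^ 4 * s ^ 2 * min ((B : ℝ) - A) q ^ 2 := by ring
    _ ≤ 4 * K ^ 4 * s ^ 2 * ((B - A) * q) := mul_le_mul_of_nonneg_left h11 (by positivity)
    _ = 8 * K ^ 4 * (B - A) * wt x := by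
        rw [h13, hq]
        unfold wt
        field_simp
        ring

/-- **Mean square of the increments.** -/
theorem incr_le (k A B M : ℕ) (hAB : A ≤ B) (hM : B ^ k ≤ M) (K : ℝ)
    (hK : ∀ m ∈ Icc 1 M, (dk k B m : ℝ) ≤ K) :
    ∫ ω, bl (X k ω) A B ^ 2 ∂PT ≤ 16 * K ^ 4 * L M ^ 4 * (B - A : ℕ) := by
  have h1 : ∀ ω, bl (X k ω) A B ^ 2 = ‖Y (OD M) (cf k A B) ω‖ ^ 2 := by
    intro ω
    rw [← bl_eq k ω A B M hM, Complex.norm_real, Real.norm_eq_abs, sq_abs]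
  simp_rw [h1]
  refine (second_moment_le (OD M) (cf k A B) M (fun x hx => ?_)).trans ?_
  · rw [mem_OD] at hx
    exact ⟨by omega, by omega, by omega⟩
  have hL := L_nonneg M
  have hABR : (A : ℝ) ≤ B := by exact_mod_cast hAB
  have h2 : ∑ x ∈ OD M, ‖cf k A B x‖ ^ 2 * (Nat.gcd x.1 x.2 : ℝ) ≤
      8 * K ^ 4 * (B - A) * (2 * L M ^ 3) := by
    have h3 : ∀ x ∈ OD M, ‖cf k A B x‖ ^ 2 * (Nat.gcd x.1 x.2 : ℝ) ≤
        8 * K ^ 4 * (B - A) * (wt x * (Nat.gcd x.1 x.2 : ℝ)) := by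
      intro x hx
      have hx' := mem_OD.1 hx
      have h4 := norm_cf_sq k A B hAB (x := x) (by omega) (by omega) hx'.2.2 K
        (hK x.1 (Finset.mem_Icc.2 hx'.1)) (hK x.2 (Finset.mem_Icc.2 hx'.2.1))
      rw [← mul_assoc]
      exact mul_le_mul_of_nonneg_right h4 (Nat.cast_nonneg _)
    refine (Finset.sum_le_sum h3).trans ?_
    rw [← Finset.mul_sum]
    refine mul_le_mul_of_nonneg_left (sum_wt_le M) ?_
    have : 0 ≤ (B : ℝ) - A := by linarith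
    positivity
  change L M * _ ≤ _
  calc L M * ∑ x ∈ OD M, ‖cf k A B x‖ ^ 2 * (Nat.gcd x.1 x.2 : ℝ) ≤
      L M * (8 * K ^ 4 * (B - A) * (2 * L M ^ 3)) := mul_le_mul_of_nonneg_left h2 hL
    _ = 16 * K ^ 4 * L M ^ 4 * (B - A : ℕ) := by
        rw [Nat.cast_sub hAB]
        ring

lemma X_cont (k j : ℕ) : Continuous fun ω => X k ω j := by
  have h : ∀ ω, X k ω j = (Y (OD (j ^ k)) (fun x => ((dk k j x.1 * dk k j x.2 : ℕ) : ℝ) *
      (J x 0 ((j + 1 : ℕ) : ℝ) - J x 0 j)) ω).re := by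
    intro ω
    rw [← X_eq k ω j (j ^ k) le_rfl 0]
    simp
  simp_rw [h]
  exact Complex.continuous_re.comp (Y_cont _ _)

end Pool.Agent.Q255.RM
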