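import Pool.Agent.Q255.RM.Incr

/-!
# The remainder is `O(T^(1/2+ε))` for almost every twist
-/

set_option autoImplicit false

open MeasureTheory Filter Topology Finset

namespace Pool.Agent.Q255.RM

open Q289.PAM
open Pool.Agent.Q163.PM (bl DD DD_nonneg bl_le)

/-- the remainder -/
noncomputable def R (k : ℕ) (ω : ℕ → UnitAddCircle) (T : ℝ) : ℝ :=
  ∫ t in (0 : ℝ)..T, (‖Z ω t‖ ^ (2 * k) - D k ⌊t⌋₊)

lemma L_le_rpow (δ : ℝ) (hδ : 0 < δ) (M : ℕ) (hM : 1 ≤ M) : L M ≤ (1 + 1 / δ) * (M : ℝ) ^ δ := by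
  have hMR : (1 : ℝ) ≤ M := by exact_mod_cast hM
  have h1 := L_le M
  have h2 := Real.log_le_rpow_div (by positivity : (0 : ℝ) ≤ M) hδ
  have h3 : (1 : ℝ) ≤ (M : ℝ) ^ δ := Real.one_le_rpow hMR hδ.le
  calc L M ≤ 1 + Real.log M := h1
    _ ≤ (M : ℝ) ^ δ + (M : ℝ) ^ δ / δ := by linarith
    _ = (1 + 1 / δ) * (M : ℝ) ^ δ := by ring

lemma dk_bound (k : ℕ) (δ : ℝ) (hδ : 0 < δ) : ∃ C : ℝ, 1 ≤ C ∧ ∀ M B : ℕ, ∀ m ∈ Icc 1 M,
    (dk k B m : ℝ) ≤ C * (M : ℝ) ^ (δ * k) := by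
  obtain ⟨C, hC, h⟩ := Pool.Agent.Helper112.divisor_bound δ hδ
  refine ⟨max 1 C ^ k, one_le_pow₀ (le_max_left _ _), fun M B m hm => ?_⟩
  rw [Finset.mem_Icc] at hm
  have h1 : (dk k B m : ℝ) ≤ (m.divisors.card : ℝ) ^ k := by
    exact_mod_cast dk_le k B (by omega : m ≠ 0)
  have h2 := h m hm.1
  have hmM : (m : ℝ) ≤ M := by exact_mod_cast hm.2
  have h3 : C * (m : ℝ) ^ δ ≤ max 1 C * (M : ℝ) ^ δ := by
    have h4 := Real.rpow_le_rpow (Nat.cast_nonneg m) hmM hδ.le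
    exact mul_le_mul (le_max_right _ _) h4 (by positivity) (by positivity)
  calc (dk k B m : ℝ) ≤ (m.divisors.card : ℝ) ^ k := h1
    _ ≤ (max 1 C * (M : ℝ) ^ δ) ^ k := pow_le_pow_left₀ (Nat.cast_nonneg _) (h2.trans h3) k
    _ = max 1 C ^ k * (M : ℝ) ^ (δ * k) := by
        rw [mul_pow, ← Real.rpow_natCast ((M : ℝ) ^ δ), ← Real.rpow_mul (Nat.cast_nonneg _)]

/-- scale-dependent constant -/
lemma incr_scale (k : ℕ) (η : ℝ) (hη : 0 < η) : ∃ C : ℝ, 0 < C ∧ ∀ r A B : ℕ, A ≤ B → B ≤ 2 ^ r →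
    ∫ ω, bl (X k ω) A B ^ 2 ∂PT ≤ C * ((2 : ℝ) ^ r) ^ η * (B - A : ℕ) := by
  obtain ⟨δ, hδdef⟩ : ∃ δ : ℝ, δ = η / (4 * k * (k + 1) + 1) := ⟨_, rfl⟩
  have hden : (0 : ℝ) < 4 * k * (k + 1) + 1 := by positivity
  have hδ : 0 < δ := by rw [hδdef]; positivity
  obtain ⟨C, hC1, hC⟩ := dk_bound k δ hδ
  refine ⟨16 * C ^ 4 * (1 + 1 / δ) ^ 4, by positivity, fun r A B hAB hB => ?_⟩
  obtain ⟨M, hM⟩ : ∃ M, M = (2 ^ r) ^ k := ⟨_, rfl⟩
  have hM1 : 1 ≤ M := by rw [hM]; exact Nat.one_le_pow _ _ (Nat.one_le_two_pow)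
  have hMR : (1 : ℝ) ≤ M := by exact_mod_cast hM1
  have h1 := incr_le k A B M hAB (by rw [hM]; exact Nat.pow_le_pow_left hB k) (C * (M : ℝ) ^ (δ * k)) (hC M B)
  refine h1.trans ?_
  refine mul_le_mul_of_nonneg_right ?_ (Nat.cast_nonneg _)
  have h2 := L_le_rpow δ hδ M hM1
  have h3 : L M ^ 4 ≤ ((1 + 1 / δ) * (M : ℝ) ^ δ) ^ 4 := pow_le_pow_left₀ (L_nonneg M) h2 4
  have h4 : 16 * (C * (M : ℝ) ^ (δ * k)) ^ 4 * L M ^ 4 ≤
      16 * (C * (M : ℝ) ^ (δ * k)) ^ 4 * ((1 + 1 / δ) * (M : ℝ) ^ δ) ^ 4 :=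
    mul_le_mul_of_nonneg_left h3 (by positivity)
  refine h4.trans ?_
  have h5 : 16 * (C * (M : ℝ) ^ (δ * k)) ^ 4 * ((1 + 1 / δ) * (M : ℝ) ^ δ) ^ 4 =
      16 * C ^ 4 * (1 + 1 / δ) ^ 4 * (M : ℝ) ^ (4 * δ * (k + 1)) := by
    have e1 : (M : ℝ) ^ (4 * δ * (k + 1)) = ((M : ℝ) ^ (δ * k)) ^ 4 * ((M : ℝ) ^ δ) ^ 4 := by
      rw [← Real.rpow_natCast, ← Real.rpow_natCast ((M : ℝ) ^ δ), ← Real.rpow_mul (by positivity),
        ← Real.rpow_mul (by positivity), ← Real.rpow_add (by positivity)]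
      congr 1
      push_cast
      ring
    rw [e1]
    ring
  rw [h5]
  refine mul_le_mul_of_nonneg_left ?_ (by positivity)
  have h6 : (M : ℝ) = ((2 : ℝ) ^ r) ^ (k : ℝ) := by
    rw [hM, Real.rpow_natCast]
    push_cast
    rfl
  rw [h6, ← Real.rpow_mul (by positivity)]
  refine Real.rpow_le_rpow_of_exponent_le (one_le_pow₀ (by norm_num)) ?_
  rw [hδdef]
  have hk : (0 : ℝ) ≤ k := Nat.cast_nonneg _
  have e2 : (k : ℝ) * (4 * (η / (4 * k * (k + 1) + 1)) * (k + 1)) = η * ((4 * k * (k + 1)) / (4 * k * (k + 1) + 1)) := by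
    ring
  rw [e2]
  have e3 : (4 * (k : ℝ) * (k + 1)) / (4 * k * (k + 1) + 1) ≤ 1 := by
    rw [div_le_one hden]
    linarith
  nlinarith

lemma bl_cont (k A B : ℕ) : Continuous fun ω => bl (X k ω) A B := by
  unfold bl
  exact continuous_finsetSum _ fun j _ => X_cont k j

lemma DD_cont (k r : ℕ) : ∀ a, Continuous fun ω => DD (X k ω) r a := by
  induction r with
  | zero =>
    intro a
    simp only [DD]
    exact (X_cont k a).pow 2
  | succ r ih =>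
    intro a
    simp only [DD]
    exact ((ih _).add (ih _)).add ((bl_cont k _ _).pow 2)

lemma integrable_of_cont {h : (ℕ → UnitAddCircle) → ℝ} (hc : Continuous h) : Integrable h PT := by
  obtain ⟨C, hC⟩ := (isCompact_range hc).isBounded.exists_norm_le
  exact Integrable.of_bound hc.aestronglyMeasurable C (Eventually.of_forall fun ω => hC _ ⟨ω, rfl⟩)

lemma DD_int (k r0 : ℕ) (K : ℝ)
    (hK : ∀ A B : ℕ, A ≤ B → B ≤ 2 ^ r0 → ∫ ω, bl (X k ω) A B ^ 2 ∂PT ≤ K * (B - A : ℕ)) (r : ℕ) :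
    ∀ a, a + 2 ^ r ≤ 2 ^ r0 → ∫ ω, DD (X k ω) r a ∂PT ≤ K * ((r + 1) * 2 ^ r) := by
  induction r with
  | zero =>
    intro a ha
    have h1 := hK a (a + 1) (by omega) (by simpa using ha)
    simp only [DD]
    have h2 : ∀ ω, bl (X k ω) a (a + 1) = X k ω a := by
      intro ω
      simp [bl]
    simp_rw [h2] at h1
    simpa using h1
  | succ r ih =>
    intro a ha
    have hp : 2 ^ (r + 1) = 2 ^ r + 2 ^ r := by ring
    have hp1 : 1 ≤ 2 ^ r := Nat.one_le_two_pow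
    have h1 := ih a (by omega)
    have h2 := ih (a + 2 ^ r) (by omega)
    have h3 := hK a (a + 2 ^ (r + 1)) (Nat.le_add_right _ _) ha
    simp only [DD]
    have i1 := integrable_of_cont (DD_cont k r a)
    have i2 := integrable_of_cont (DD_cont k r (a + 2 ^ r))
    have c3 : Continuous (fun ω => bl (X k ω) a (a + 2 ^ (r + 1)) ^ 2) := (bl_cont k a (a + 2 ^ (r + 1))).pow 2
    have i3 := integrable_of_cont c3
    have i12 : Integrable (fun ω => DD (X k ω) r a + DD (X k ω) r (a + 2 ^ r)) PT := i1.add i2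
    rw [integral_add i12 i3, integral_add i1 i2]
    rw [Nat.add_sub_cancel_left] at h3
    push_cast at h3 ⊢
    have e1 : (2 : ℝ) ^ (r + 1) = 2 * 2 ^ r := by ring
    have e2 : K * (((r : ℝ) + 1 + 1) * 2 ^ (r + 1)) =
        K * (((r : ℝ) + 1) * 2 ^ r) + K * (((r : ℝ) + 1) * 2 ^ r) + K * 2 ^ (r + 1) := by
      rw [e1]
      ring
    linarith

/-- sums of nonnegative functions with summable integrals -/
lemma ae_bdd_of_summable {h : ℕ → (ℕ → UnitAddCircle) → ℝ} (hc : ∀ r, Continuous (h r))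
    (h0 : ∀ r ω, 0 ≤ h r ω) (hs : Summable fun r => ∫ ω, h r ω ∂PT) :
    ∀ᵐ ω ∂PT, ∃ C : ℝ, ∀ r, h r ω ≤ C := by
  have hm : ∀ r, AEMeasurable (fun ω => ENNReal.ofReal (h r ω)) PT := fun r =>
    ((hc r).measurable.ennreal_ofReal).aemeasurable
  have h1 : ∫⁻ ω, ∑' r, ENNReal.ofReal (h r ω) ∂PT ≠ ⊤ := by
    rw [lintegral_tsum hm]
    have h2 : ∀ r, ∫⁻ ω, ENNReal.ofReal (h r ω) ∂PT = ENNReal.ofReal (∫ ω, h r ω ∂PT) := fun r =>
      (ofReal_integral_eq_lintegral_ofReal (integrable_of_cont (hc r)) (Eventually.of_forall (h0 r))).symm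
    simp_rw [h2]
    rw [← ENNReal.ofReal_tsum_of_nonneg (fun r => integral_nonneg (h0 r)) hs]
    exact ENNReal.ofReal_ne_top
  have h3 := ae_lt_top' (AEMeasurable.ennreal_tsum hm) h1
  filter_upwards [h3] with ω hω
  refine ⟨(∑' r, ENNReal.ofReal (h r ω)).toReal, fun r => ?_⟩
  have h4 : ENNReal.ofReal (h r ω) ≤ ∑' r, ENNReal.ofReal (h r ω) := ENNReal.le_tsum r
  have h5 := ENNReal.toReal_mono hω.ne h4
  rwa [ENNReal.toReal_ofReal (h0 r ω)] at h5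

lemma summable_aux (η : ℝ) (hη : 0 < η) : Summable fun r : ℕ => ((r : ℝ) + 1) * ((2 : ℝ) ^ r) ^ (-η) := by
  obtain ⟨q, hq⟩ : ∃ q : ℝ, q = (2 : ℝ) ^ (-η) := ⟨_, rfl⟩
  have hq0 : 0 < q := by rw [hq]; positivity
  have hq1 : q < 1 := by
    rw [hq]
    exact Real.rpow_lt_one_of_one_lt_of_neg (by norm_num) (by linarith)
  have h1 : ∀ r : ℕ, ((2 : ℝ) ^ r) ^ (-η) = q ^ r := by
    intro r
    rw [hq, ← Real.rpow_natCast, ← Real.rpow_natCast, ← Real.rpow_mul (by norm_num), ← Real.rpow_mul (by norm_num),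
      mul_comm]
  simp_rw [h1, add_mul, one_mul]
  have hn : ‖q‖ < 1 := by rw [Real.norm_of_nonneg hq0.le]; exact hq1
  refine Summable.add ?_ (summable_geometric_of_lt_one hq0.le hq1)
  have := summable_pow_mul_geometric_of_norm_lt_one 1 hn
  simpa using this

/-- almost sure bound along the dyadic scales -/
theorem ae_DD (k : ℕ) (η : ℝ) (hη : 0 < η) :
    ∀ᵐ ω ∂PT, ∃ C : ℝ, ∀ r : ℕ, DD (X k ω) r 0 ≤ C * ((2 : ℝ) ^ r) ^ (1 + 2 * η) := by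
  obtain ⟨C0, hC0, hC⟩ := incr_scale k η hη
  have hpos : ∀ r : ℕ, (0 : ℝ) < ((2 : ℝ) ^ r) ^ (1 + 2 * η) := fun r => by positivity
  have h1 := ae_bdd_of_summable (h := fun r ω => DD (X k ω) r 0 / ((2 : ℝ) ^ r) ^ (1 + 2 * η))
    (fun r => (DD_cont k r 0).div_const _) (fun r ω => div_nonneg (DD_nonneg _ _ _) (hpos r).le) (by
      refine Summable.of_nonneg_of_le (fun r => integral_nonneg fun ω => div_nonneg (DD_nonneg _ _ _) (hpos r).le)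
        (fun r => ?_) ((summable_aux η hη).mul_left C0)
      rw [integral_div, div_le_iff₀ (hpos r)]
      have h2 := DD_int k r (C0 * ((2 : ℝ) ^ r) ^ η) (fun A B hAB hB => hC r A B hAB hB) r 0 (by simp)
      refine h2.trans (le_of_eq ?_)
      have h3 : ((2 : ℝ) ^ r) ^ (1 + 2 * η) * ((2 : ℝ) ^ r) ^ (-η) = ((2 : ℝ) ^ r) ^ η * 2 ^ r := by
        rw [← Real.rpow_add (by positivity), show 1 + 2 * η + -η = η + 1 by ring, Real.rpow_add (by positivity),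
          Real.rpow_one]
      calc C0 * ((2 : ℝ) ^ r) ^ η * (((r : ℝ) + 1) * 2 ^ r) = C0 * ((r : ℝ) + 1) * (((2 : ℝ) ^ r) ^ η * 2 ^ r) := by ring
        _ = C0 * (((r : ℝ) + 1) * ((2 : ℝ) ^ r) ^ (-η)) * ((2 : ℝ) ^ r) ^ (1 + 2 * η) := by
            rw [← h3]
            ring)
  filter_upwards [h1] with ω hω
  obtain ⟨C, hC'⟩ := hω
  refine ⟨C, fun r => ?_⟩
  have := hC' r
  rwa [div_le_iff₀ (hpos r)] at this

/-- almost sure bound at the integers -/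
theorem ae_bl (k : ℕ) (η : ℝ) (hη : 0 < η) :
    ∀ᵐ ω ∂PT, ∃ C : ℝ, 0 ≤ C ∧ ∀ N : ℕ, 1 ≤ N → |bl (X k ω) 0 N| ≤ C * (N : ℝ) ^ (1 / 2 + 2 * η) := by
  filter_upwards [ae_DD k η hη] with ω hω
  obtain ⟨C, hC⟩ := hω
  -- `(r + 1) ≤ (1 + 1/η) (2^r)^(2 η)`
  obtain ⟨C1, hC1⟩ : ∃ C1 : ℝ, C1 = 1 + 1 / (η * Real.log 2) := ⟨_, rfl⟩
  have hl2 : 0 < Real.log 2 := Real.log_pos (by norm_num)
  have hC1' : 0 < C1 := by rw [hC1]; positivity
  have hr1 : ∀ r : ℕ, (r : ℝ) + 1 ≤ C1 * ((2 : ℝ) ^ r) ^ η := by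
    intro r
    have h1 : ((2 : ℝ) ^ r) ^ η = Real.exp (r * (η * Real.log 2)) := by
      rw [← Real.rpow_natCast, ← Real.rpow_mul (by norm_num), Real.rpow_def_of_pos (by norm_num)]
      congr 1
      ring
    rw [h1, hC1]
    have h2 := Real.add_one_le_exp (r * (η * Real.log 2))
    have h3 : 0 < η * Real.log 2 := by positivity
    have h4 : 1 ≤ Real.exp (r * (η * Real.log 2)) := Real.one_le_exp (by positivity)
    have h5 : (r : ℝ) ≤ 1 / (η * Real.log 2) * Real.exp (r * (η * Real.log 2)) := by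
      rw [div_mul_eq_mul_div, one_mul, le_div_iff₀ h3]
      linarith
    nlinarith
  have hCn : 0 ≤ C := by
    have h1 := hC 0
    have h2 := DD_nonneg (X k ω) 0 0
    simp at h1
    linarith
  refine ⟨Real.sqrt (C1 * C * 2 ^ (1 + 3 * η)), Real.sqrt_nonneg _, fun N hN => ?_⟩
  have hNR : (1 : ℝ) ≤ N := by exact_mod_cast hN
  obtain ⟨r, hr⟩ : ∃ r, r = Nat.log 2 N := ⟨_, rfl⟩
  have h3 : 2 ^ r ≤ N := by
    rw [hr]
    exact Nat.pow_log_le_self 2 (by omega)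
  have h4 : N < 2 ^ (r + 1) := by
    rw [hr]
    exact Nat.lt_pow_succ_log_self (by norm_num) N
  have h3R : (2 : ℝ) ^ r ≤ N := by exact_mod_cast h3
  have h5 := bl_le (X k ω) (r + 1) 0 N h4.le
  have h6 := hC (r + 1)
  have h7 := hr1 (r + 1)
  have h8 : bl (X k ω) 0 N ^ 2 ≤ C1 * C * ((2 : ℝ) ^ (r + 1)) ^ (1 + 3 * η) := by
    have h9 : (((r + 1 : ℕ) : ℝ) + 1) * DD (X k ω) (r + 1) 0 ≤
        (C1 * ((2 : ℝ) ^ (r + 1)) ^ η) * (C * ((2 : ℝ) ^ (r + 1)) ^ (1 + 2 * η)) :=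
      mul_le_mul h7 h6 (DD_nonneg _ _ _) (by positivity)
    have h10 : (C1 * ((2 : ℝ) ^ (r + 1)) ^ η) * (C * ((2 : ℝ) ^ (r + 1)) ^ (1 + 2 * η)) =
        C1 * C * ((2 : ℝ) ^ (r + 1)) ^ (1 + 3 * η) := by
      have e : ((2 : ℝ) ^ (r + 1)) ^ (1 + 3 * η) = ((2 : ℝ) ^ (r + 1)) ^ η * ((2 : ℝ) ^ (r + 1)) ^ (1 + 2 * η) := by
        rw [← Real.rpow_add (by positivity)]
        congr 1
        ring
      rw [e]
      ring
    rw [zero_add] at h5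
    linarith
  have h9 : ((2 : ℝ) ^ (r + 1)) ^ (1 + 3 * η) ≤ 2 ^ (1 + 3 * η) * (N : ℝ) ^ (1 + 3 * η) := by
    rw [← Real.mul_rpow (by norm_num) (by positivity)]
    refine Real.rpow_le_rpow (by positivity) ?_ (by positivity)
    rw [pow_succ]
    linarith
  have h10 : bl (X k ω) 0 N ^ 2 ≤ (Real.sqrt (C1 * C * 2 ^ (1 + 3 * η)) * (N : ℝ) ^ (1 / 2 + 2 * η)) ^ 2 := by
    rw [mul_pow, Real.sq_sqrt (by positivity)]
    have h11 : ((N : ℝ) ^ (1 / 2 + 2 * η)) ^ 2 = (N : ℝ) ^ (1 + 4 * η) := by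
      rw [← Real.rpow_natCast, ← Real.rpow_mul (by positivity)]
      congr 1
      push_cast
      ring
    rw [h11]
    have h12 : (N : ℝ) ^ (1 + 3 * η) ≤ (N : ℝ) ^ (1 + 4 * η) :=
      Real.rpow_le_rpow_of_exponent_le hNR (by linarith)
    calc bl (X k ω) 0 N ^ 2 ≤ C1 * C * ((2 : ℝ) ^ (r + 1)) ^ (1 + 3 * η) := h8
      _ ≤ C1 * C * (2 ^ (1 + 3 * η) * (N : ℝ) ^ (1 + 3 * η)) := mul_le_mul_of_nonneg_left h9 (by positivity)
      _ = C1 * C * 2 ^ (1 + 3 * η) * (N : ℝ) ^ (1 + 3 * η) := by ring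
      _ ≤ _ := mul_le_mul_of_nonneg_left h12 (by positivity)
  exact abs_le_of_sq_le_sq h10 (by positivity)

end Pool.Agent.Q255.RM
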