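import Mathlib

/-!
# Elementary sums
-/

set_option autoImplicit false

open Finset

namespace Pool.Agent.Q255.RM

/-- harmonic sum -/
noncomputable def L (M : ℕ) : ℝ := ∑ g ∈ Icc 1 M, (1 : ℝ) / g

lemma L_nonneg (M : ℕ) : 0 ≤ L M := Finset.sum_nonneg fun g _ => by positivity

lemma L_mono {M N : ℕ} (h : M ≤ N) : L M ≤ L N :=
  Finset.sum_le_sum_of_subset_of_nonneg (Finset.Icc_subset_Icc_right h) fun g _ _ => by positivity

lemma L_le (M : ℕ) : L M ≤ 1 + Real.log M := by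
  have h := harmonic_le_one_add_log M
  have h2 : ((harmonic M : ℚ) : ℝ) = L M := by
    unfold L
    rw [harmonic_eq_sum_Icc]
    push_cast
    simp [one_div]
  rw [← h2]
  exact h

lemma sum_mult_le (M g : ℕ) (hg : 1 ≤ g) :
    ∑ m ∈ (Icc 1 M).filter (fun m => g ∣ m), (1 : ℝ) / m ≤ L M / g := by
  have hg0 : (0 : ℝ) < g := by exact_mod_cast hg
  have h1 : ∑ m ∈ (Icc 1 M).filter (fun m => g ∣ m), (1 : ℝ) / m =
      ∑ m ∈ (Icc 1 M).filter (fun m => g ∣ m), (1 : ℝ) / ((m / g : ℕ) : ℝ) / g := by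
    refine Finset.sum_congr rfl fun m hm => ?_
    obtain ⟨hm1, k, rfl⟩ := Finset.mem_filter.1 hm
    rw [Nat.mul_div_cancel_left _ (by omega)]
    push_cast
    rw [div_div, mul_comm]
  rw [h1, ← Finset.sum_div]
  refine div_le_div_of_nonneg_right ?_ hg0.le
  have hinj : Set.InjOn (fun m : ℕ => m / g) ((Icc 1 M).filter (fun m => g ∣ m)) := by
    intro m hm n hn hmn
    simp only [Finset.coe_filter, Set.mem_ofPred_eq] at hm hn
    obtain ⟨_, k, rfl⟩ := hm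
    obtain ⟨_, l, rfl⟩ := hn
    simp only [Nat.mul_div_cancel_left _ (show 0 < g by omega)] at hmn
    rw [hmn]
  rw [← Finset.sum_image (f := fun m : ℕ => (1 : ℝ) / m) hinj]
  unfold L
  refine Finset.sum_le_sum_of_subset_of_nonneg ?_ fun g _ _ => by positivity
  intro m hm
  obtain ⟨y, hy, rfl⟩ := Finset.mem_image.1 hm
  obtain ⟨hy1, k, rfl⟩ := Finset.mem_filter.1 hy
  rw [Finset.mem_Icc] at hy1 ⊢
  simp only [Nat.mul_div_cancel_left _ (show 0 < g by omega)]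
  refine ⟨?_, ?_⟩
  · rcases Nat.eq_zero_or_pos k with h | h
    · subst h
      simp at hy1
    · exact h
  · exact (Nat.le_mul_of_pos_left k (by omega)).trans hy1.2

lemma sum_gcd_le (M : ℕ) :
    ∑ m ∈ Icc 1 M, ∑ h ∈ Icc 1 M, (Nat.gcd m h : ℝ) / ((m : ℝ) * h) ≤ L M ^ 3 := by
  have h1 : ∀ m ∈ Icc 1 M, ∀ h ∈ Icc 1 M, (Nat.gcd m h : ℝ) / ((m : ℝ) * h) ≤
      ∑ g ∈ Icc 1 M, (g : ℝ) * ((if g ∣ m then 1 / (m : ℝ) else 0) * (if g ∣ h then 1 / (h : ℝ) else 0)) := by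
    intro m hm h hh
    rw [Finset.mem_Icc] at hm hh
    have hgpos : 0 < Nat.gcd m h := Nat.gcd_pos_of_pos_left _ (by omega)
    have hgm : Nat.gcd m h ∈ Icc 1 M := by
      rw [Finset.mem_Icc]
      exact ⟨hgpos, (Nat.gcd_le_left _ (by omega)).trans hm.2⟩
    refine le_trans ?_ (Finset.single_le_sum (f := fun g : ℕ => (g : ℝ) *
      ((if g ∣ m then 1 / (m : ℝ) else 0) * (if g ∣ h then 1 / (h : ℝ) else 0))) (fun g _ => ?_) hgm)
    · simp only [Nat.gcd_dvd_left, Nat.gcd_dvd_right, if_true]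
      rw [div_mul_div_comm, one_mul, mul_one_div]
    · have h1 : (0 : ℝ) ≤ (if g ∣ m then 1 / (m : ℝ) else 0) := by split_ifs <;> positivity
      have h2 : (0 : ℝ) ≤ (if g ∣ h then 1 / (h : ℝ) else 0) := by split_ifs <;> positivity
      positivity
  refine (Finset.sum_le_sum fun m hm => Finset.sum_le_sum fun h hh => h1 m hm h hh).trans ?_
  have h2 : ∑ m ∈ Icc 1 M, ∑ h ∈ Icc 1 M, ∑ g ∈ Icc 1 M, (g : ℝ) *
      ((if g ∣ m then 1 / (m : ℝ) else 0) * (if g ∣ h then 1 / (h : ℝ) else 0)) =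
      ∑ g ∈ Icc 1 M, (g : ℝ) * (∑ m ∈ (Icc 1 M).filter (fun m => g ∣ m), (1 : ℝ) / m) ^ 2 := by
    have : ∀ m ∈ Icc 1 M, ∑ h ∈ Icc 1 M, ∑ g ∈ Icc 1 M, (g : ℝ) *
      ((if g ∣ m then 1 / (m : ℝ) else 0) * (if g ∣ h then 1 / (h : ℝ) else 0)) =
      ∑ g ∈ Icc 1 M, ∑ h ∈ Icc 1 M, (g : ℝ) *
      ((if g ∣ m then 1 / (m : ℝ) else 0) * (if g ∣ h then 1 / (h : ℝ) else 0)) := fun m _ => Finset.sum_comm
    rw [Finset.sum_congr rfl this, Finset.sum_comm]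
    refine Finset.sum_congr rfl fun g _ => ?_
    rw [Finset.sum_filter, sq, Finset.sum_mul_sum, Finset.mul_sum]
    refine Finset.sum_congr rfl fun m _ => ?_
    rw [Finset.mul_sum]
  rw [h2]
  have hL := L_nonneg M
  calc ∑ g ∈ Icc 1 M, (g : ℝ) * (∑ m ∈ (Icc 1 M).filter (fun m => g ∣ m), (1 : ℝ) / m) ^ 2 ≤
      ∑ g ∈ Icc 1 M, L M ^ 2 * (1 / (g : ℝ)) := by
        refine Finset.sum_le_sum fun g hg => ?_
        rw [Finset.mem_Icc] at hg
        have hg0 : (0 : ℝ) < g := by exact_mod_cast hg.1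
        have h3 := sum_mult_le M g hg.1
        have h4 : 0 ≤ ∑ m ∈ (Icc 1 M).filter (fun m => g ∣ m), (1 : ℝ) / m :=
          Finset.sum_nonneg fun m _ => by positivity
        calc (g : ℝ) * (∑ m ∈ (Icc 1 M).filter (fun m => g ∣ m), (1 : ℝ) / m) ^ 2 ≤ g * (L M / g) ^ 2 :=
              mul_le_mul_of_nonneg_left (pow_le_pow_left₀ h4 h3 2) hg0.le
          _ = L M ^ 2 * (1 / (g : ℝ)) := by field_simp
    _ = L M ^ 3 := by
        rw [← Finset.mul_sum]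
        unfold L
        ring

/-- the set of pairs off the diagonal -/
def OD (M : ℕ) : Finset (ℕ × ℕ) := ((Icc 1 M) ×ˢ (Icc 1 M)).filter fun x => x.1 ≠ x.2

lemma mem_OD {M : ℕ} {x : ℕ × ℕ} : x ∈ OD M ↔ (1 ≤ x.1 ∧ x.1 ≤ M) ∧ (1 ≤ x.2 ∧ x.2 ≤ M) ∧ x.1 ≠ x.2 := by
  unfold OD
  rw [Finset.mem_filter, Finset.mem_product, Finset.mem_Icc, Finset.mem_Icc]
  tauto

/-- `max(m,n) / (m n |m - n|)` -/
noncomputable def wt (x : ℕ × ℕ) : ℝ :=
  (max (x.1 : ℝ) x.2) / ((x.1 : ℝ) * x.2 * |(x.1 : ℝ) - x.2|)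

lemma sum_wt_le (M : ℕ) : ∑ x ∈ OD M, wt x * (Nat.gcd x.1 x.2 : ℝ) ≤ 2 * L M ^ 3 := by
  have h1 : ∑ x ∈ OD M, wt x * (Nat.gcd x.1 x.2 : ℝ) =
      ∑ x ∈ (OD M).filter (fun x => x.1 < x.2), wt x * (Nat.gcd x.1 x.2 : ℝ) +
      ∑ x ∈ (OD M).filter (fun x => ¬ x.1 < x.2), wt x * (Nat.gcd x.1 x.2 : ℝ) :=
    (Finset.sum_filter_add_sum_filter_not _ _ _).symm
  have key : ∑ x ∈ (OD M).filter (fun x => x.1 < x.2), wt x * (Nat.gcd x.1 x.2 : ℝ) ≤ L M ^ 3 := by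
    refine le_trans ?_ (sum_gcd_le M)
    rw [← Finset.sum_product' (f := fun m h : ℕ => (Nat.gcd m h : ℝ) / ((m : ℝ) * h))]
    have hinj : Set.InjOn (fun x : ℕ × ℕ => (x.1, x.2 - x.1)) ((OD M).filter (fun x => x.1 < x.2)) := by
      intro x hx y hy hxy
      simp only [Finset.coe_filter, Set.mem_ofPred_eq] at hx hy
      simp only [Prod.mk.injEq] at hxy
      ext
      · exact hxy.1
      · have := hxy.2
        have := hxy.1
        omega
    have h2 : ∑ x ∈ (OD M).filter (fun x => x.1 < x.2), wt x * (Nat.gcd x.1 x.2 : ℝ) =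
        ∑ x ∈ (OD M).filter (fun x => x.1 < x.2), (fun y : ℕ × ℕ => (Nat.gcd y.1 y.2 : ℝ) / ((y.1 : ℝ) * y.2))
          ((fun x : ℕ × ℕ => (x.1, x.2 - x.1)) x) := by
      refine Finset.sum_congr rfl fun x hx => ?_
      obtain ⟨hx1, hx2⟩ := Finset.mem_filter.1 hx
      rw [mem_OD] at hx1
      obtain ⟨⟨h3, _⟩, ⟨h4, _⟩, _⟩ := hx1
      obtain ⟨h, hh⟩ : ∃ h, x.2 = x.1 + h := ⟨x.2 - x.1, by omega⟩
      have hh0 : 0 < h := by omega
      have h5 : Nat.gcd x.1 x.2 = Nat.gcd x.1 h := by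
        rw [hh, Nat.gcd_self_add_right]
      simp only
      rw [h5]
      unfold wt
      have h6 : x.2 - x.1 = h := by omega
      rw [h6, hh]
      push_cast
      have hx1R : (0 : ℝ) < x.1 := by exact_mod_cast h3
      have hhR : (0 : ℝ) < h := by exact_mod_cast hh0
      rw [max_eq_right (by linarith), abs_sub_comm, add_sub_cancel_left, abs_of_pos hhR]
      field_simp
    rw [h2, ← Finset.sum_image (f := fun y : ℕ × ℕ => (Nat.gcd y.1 y.2 : ℝ) / ((y.1 : ℝ) * y.2)) hinj]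
    refine Finset.sum_le_sum_of_subset_of_nonneg ?_ fun y _ _ => by positivity
    intro y hy
    obtain ⟨x, hx, rfl⟩ := Finset.mem_image.1 hy
    obtain ⟨hx1, hx2⟩ := Finset.mem_filter.1 hx
    rw [mem_OD] at hx1
    rw [Finset.mem_product, Finset.mem_Icc, Finset.mem_Icc]
    obtain ⟨⟨h3, _⟩, ⟨h4, _⟩, _⟩ := hx1
    refine ⟨⟨h3, by omega⟩, ?_, ?_⟩ <;> simp only <;> omega
  have h2 : ∑ x ∈ (OD M).filter (fun x => ¬ x.1 < x.2), wt x * (Nat.gcd x.1 x.2 : ℝ) =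
      ∑ x ∈ (OD M).filter (fun x => x.1 < x.2), wt x * (Nat.gcd x.1 x.2 : ℝ) := by
    refine Finset.sum_bij' (fun x _ => Prod.swap x) (fun x _ => Prod.swap x) ?_ ?_ ?_ ?_ ?_
    · intro x hx
      obtain ⟨hx1, hx2⟩ := Finset.mem_filter.1 hx
      rw [mem_OD] at hx1
      rw [Finset.mem_filter, mem_OD]
      simp only [Prod.fst_swap, Prod.snd_swap]
      omega
    · intro x hx
      obtain ⟨hx1, hx2⟩ := Finset.mem_filter.1 hx
      rw [mem_OD] at hx1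
      rw [Finset.mem_filter, mem_OD]
      simp only [Prod.fst_swap, Prod.snd_swap]
      omega
    · intro x _; simp
    · intro x _; simp
    · intro x _
      unfold wt
      simp only [Prod.fst_swap, Prod.snd_swap]
      rw [Nat.gcd_comm, max_comm, abs_sub_comm, mul_comm (x.1 : ℝ) x.2]
  rw [h1, h2]
  linarith

/-- Abel summation with a nondecreasing weight -/
lemma abel_bound (u : ℕ → ℝ) (hu : Monotone u) (hu0 : ∀ j, 0 ≤ u j) (J : ℕ → ℂ) (A : ℕ) (hJA : J A = 0) (β : ℝ)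
    (B : ℕ) (hAB : A ≤ B) (hJ : ∀ j, A ≤ j → j ≤ B → ‖J j‖ ≤ β) :
    ‖∑ j ∈ Ico A B, (u j : ℂ) * (J (j + 1) - J j)‖ ≤ 2 * u B * β := by
  have hβ : 0 ≤ β := (norm_nonneg _).trans (hJ A le_rfl hAB)
  have key : ∀ B' : ℕ, A ≤ B' → B' ≤ B →
      ‖∑ j ∈ Ico A B', (u j : ℂ) * (J (j + 1) - J j) - u B' * J B'‖ ≤ u B' * β := by
    intro B' hB'
    induction B', hB' using Nat.le_induction with
    | base =>
      intro _
      rw [Finset.Ico_self, Finset.sum_empty, hJA, mul_zero, sub_zero, norm_zero]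
      exact mul_nonneg (hu0 _) hβ
    | succ n hn ih =>
      intro hnB
      have ih' := ih (by omega)
      rw [Finset.sum_Ico_succ_top hn]
      have h1 : ∑ j ∈ Ico A n, (u j : ℂ) * (J (j + 1) - J j) + (u n : ℂ) * (J (n + 1) - J n) - u (n + 1) * J (n + 1) =
          (∑ j ∈ Ico A n, (u j : ℂ) * (J (j + 1) - J j) - u n * J n) - ((u (n + 1) - u n : ℝ) : ℂ) * J (n + 1) := by
        push_cast
        ring
      rw [h1]
      refine (norm_sub_le _ _).trans ?_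
      rw [norm_mul, Complex.norm_real, Real.norm_of_nonneg (sub_nonneg.2 (hu (Nat.le_succ n)))]
      have h2 := hJ (n + 1) (by omega) hnB
      have h3 := mul_le_mul_of_nonneg_left h2 (sub_nonneg.2 (hu (Nat.le_succ n)))
      nlinarith
  have h1 := key B hAB le_rfl
  have h2 : ‖(u B : ℂ) * J B‖ ≤ u B * β := by
    rw [norm_mul, Complex.norm_real, Real.norm_of_nonneg (hu0 _)]
    exact mul_le_mul_of_nonneg_left (hJ B hAB le_rfl) (hu0 _)
  have h3 := norm_add_le (∑ j ∈ Ico A B, (u j : ℂ) * (J (j + 1) - J j) - u B * J B) ((u B : ℂ) * J B)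
  rw [sub_add_cancel] at h3
  linarith

end Pool.Agent.Q255.RM
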