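import Pool.Agent.Q255.RM.Second
import Pool.Agent.Q255.RM.Sums
import Pool.Agent.Helper112.Arith

/-!
# Powers of the twisted zeta sums
-/

set_option autoImplicit false

open MeasureTheory Filter Topology Finset

namespace Pool.Agent.Q255.RM

open Q289.PAM

/-- `n^(-1/2 - i t)` -/
noncomputable def g (t : ℝ) (n : ℕ) : ℂ := (n : ℂ) ^ (-(1 / 2 + t * Complex.I) : ℂ)

/-- the twisted zeta sum of length `t` -/
noncomputable def Z (ω : ℕ → UnitAddCircle) (t : ℝ) : ℂ := ∑ n ∈ Icc 1 ⌊t⌋₊, f ω n * g t n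

/-- the number of `k`-tuples of positive integers `≤ N` with product `m` -/
def dk (k N m : ℕ) : ℕ := ((Fintype.piFinset fun _ : Fin k => Icc 1 N).filter fun v => ∏ i, v i = m).card

/-- the diagonal sum -/
noncomputable def D (k N : ℕ) : ℝ := ∑ m ∈ Icc 1 (N ^ k), (dk k N m : ℝ) ^ 2 / m

lemma g_mul (t : ℝ) (m n : ℕ) : g t (m * n) = g t m * g t n := by
  unfold g
  rw [← Complex.natCast_mul_natCast_cpow]
  push_cast
  rfl

lemma g_one (t : ℝ) : g t 1 = 1 := by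
  unfold g
  simp

lemma g_eq_exp (t : ℝ) {n : ℕ} (hn : n ≠ 0) :
    g t n = ((Real.sqrt n)⁻¹ : ℝ) * Complex.exp ((-(t * Real.log n) : ℝ) * Complex.I) := by
  unfold g
  have hn' : (n : ℂ) ≠ 0 := by exact_mod_cast hn
  have hpos : (0 : ℝ) < n := by exact_mod_cast Nat.pos_of_ne_zero hn
  rw [Complex.cpow_def_of_ne_zero hn']
  have h1 : Real.sqrt n = Real.exp (Real.log n / 2) := by
    rw [Real.sqrt_eq_rpow, Real.rpow_def_of_pos hpos]
    congr 1
    ring
  rw [h1, ← Real.exp_neg, Complex.ofReal_exp, ← Complex.exp_add]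
  congr 1
  rw [← Complex.natCast_log]
  push_cast
  ring

lemma prod_mul_prod (ω : ℕ → UnitAddCircle) (t : ℝ) {ι : Type} (s : Finset ι) (v : ι → ℕ)
    (hv : ∀ i ∈ s, 1 ≤ v i) :
    ∏ i ∈ s, (f ω (v i) * g t (v i)) = f ω (∏ i ∈ s, v i) * g t (∏ i ∈ s, v i) ∧ 1 ≤ ∏ i ∈ s, v i := by
  classical
  induction s using Finset.induction_on with
  | empty => simp [f_one, g_one]
  | insert a s ha ih =>
    have h1 := ih fun i hi => hv i (Finset.mem_insert_of_mem hi)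
    have h2 := hv a (Finset.mem_insert_self _ _)
    rw [Finset.prod_insert ha, Finset.prod_insert ha, h1.1]
    refine ⟨?_, Nat.one_le_iff_ne_zero.2 (mul_ne_zero (by omega) (by omega))⟩
    rw [f_mul ω (by omega) (by omega), g_mul]
    ring

lemma prod_le_pow {k N : ℕ} {v : Fin k → ℕ} (hv : v ∈ Fintype.piFinset fun _ : Fin k => Icc 1 N) :
    ∏ i, v i ∈ Icc 1 (N ^ k) := by
  rw [Fintype.mem_piFinset] at hv
  rw [Finset.mem_Icc]
  constructor
  · exact Finset.one_le_prod' fun i _ => (Finset.mem_Icc.1 (hv i)).1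
  · calc ∏ i, v i ≤ ∏ _i : Fin k, N := Finset.prod_le_prod' fun i _ => (Finset.mem_Icc.1 (hv i)).2
      _ = N ^ k := by simp

lemma pow_expand (ω : ℕ → UnitAddCircle) (t : ℝ) (k N : ℕ) :
    (∑ n ∈ Icc 1 N, f ω n * g t n) ^ k = ∑ m ∈ Icc 1 (N ^ k), (dk k N m : ℂ) * (f ω m * g t m) := by
  have h1 : (∑ n ∈ Icc 1 N, f ω n * g t n) ^ k =
      ∑ v ∈ Fintype.piFinset (fun _ : Fin k => Icc 1 N), ∏ i, (f ω (v i) * g t (v i)) := by
    rw [Finset.sum_pow']
  rw [h1]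
  have h2 : ∀ v ∈ Fintype.piFinset (fun _ : Fin k => Icc 1 N), ∏ i, (f ω (v i) * g t (v i)) =
      f ω (∏ i, v i) * g t (∏ i, v i) := by
    intro v hv
    refine (prod_mul_prod ω t Finset.univ v fun i _ => ?_).1
    rw [Fintype.mem_piFinset] at hv
    exact (Finset.mem_Icc.1 (hv i)).1
  rw [Finset.sum_congr rfl h2, ← Finset.sum_fiberwise_of_maps_to (s := Fintype.piFinset fun _ : Fin k => Icc 1 N)
    (t := Icc 1 (N ^ k)) (g := fun v : Fin k → ℕ => ∏ i, v i) (fun v hv => prod_le_pow hv)]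
  refine Finset.sum_congr rfl fun m _ => ?_
  rw [Finset.sum_congr rfl (g := fun _ => f ω m * g t m) (fun v hv => by rw [(Finset.mem_filter.1 hv).2])]
  rw [Finset.sum_const, nsmul_eq_mul]
  rfl

lemma dk_mono (k m : ℕ) : Monotone fun N => dk k N m := by
  intro a b hab
  refine Finset.card_le_card ?_
  refine Finset.filter_subset_filter _ ?_
  refine Fintype.piFinset_subset _ _ fun _ => Finset.Icc_subset_Icc_right hab

lemma dk_eq_zero {k N m : ℕ} (h : N ^ k < m) : dk k N m = 0 := by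
  unfold dk
  rw [Finset.card_eq_zero, Finset.filter_eq_empty_iff]
  intro v hv hvm
  have := (Finset.mem_Icc.1 (prod_le_pow hv)).2
  omega

lemma dk_le (k N : ℕ) {m : ℕ} (hm : m ≠ 0) : dk k N m ≤ m.divisors.card ^ k := by
  unfold dk
  calc _ ≤ (Fintype.piFinset fun _ : Fin k => m.divisors).card := by
        refine Finset.card_le_card ?_
        intro v hv
        obtain ⟨_, h2⟩ := Finset.mem_filter.1 hv
        rw [Fintype.mem_piFinset]
        intro i
        rw [Nat.mem_divisors]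
        exact ⟨h2 ▸ Finset.dvd_prod_of_mem v (Finset.mem_univ i), hm⟩
    _ = m.divisors.card ^ k := by
        rw [Fintype.card_piFinset_const]

lemma sum_extend (k N M : ℕ) (h : N ^ k ≤ M) (F : ℕ → ℂ) :
    ∑ m ∈ Icc 1 (N ^ k), (dk k N m : ℂ) * F m = ∑ m ∈ Icc 1 M, (dk k N m : ℂ) * F m := by
  refine Finset.sum_subset (Finset.Icc_subset_Icc_right h) fun m hm hm2 => ?_
  rw [Finset.mem_Icc] at hm hm2
  rw [dk_eq_zero (by omega), Nat.cast_zero, zero_mul]

/-- the kernel `m^(-1/2-it) conj(n^(-1/2-it))` -/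
noncomputable def E (x : ℕ × ℕ) (t : ℝ) : ℂ := g t x.1 * star (g t x.2)

lemma E_eq {x : ℕ × ℕ} (h1 : x.1 ≠ 0) (h2 : x.2 ≠ 0) (t : ℝ) :
    E x t = ((Real.sqrt x.1)⁻¹ * (Real.sqrt x.2)⁻¹ : ℝ) *
      Complex.exp ((t * (Real.log x.2 - Real.log x.1) : ℝ) * Complex.I) := by
  unfold E
  rw [g_eq_exp t h1, g_eq_exp t h2]
  have h3 : star (((Real.sqrt x.2)⁻¹ : ℝ) * Complex.exp ((-(t * Real.log x.2) : ℝ) * Complex.I) : ℂ) =
      ((Real.sqrt x.2)⁻¹ : ℝ) * Complex.exp ((t * Real.log x.2 : ℝ) * Complex.I) := by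
    rw [star_mul', Complex.star_def, Complex.conj_ofReal, ← Complex.exp_conj]
    congr 2
    simp only [map_mul, Complex.conj_ofReal, Complex.conj_I]
    push_cast
    ring
  rw [h3]
  have h4 : Complex.exp ((t * (Real.log x.2 - Real.log x.1) : ℝ) * Complex.I) =
      Complex.exp ((-(t * Real.log x.1) : ℝ) * Complex.I) * Complex.exp ((t * Real.log x.2 : ℝ) * Complex.I) := by
    rw [← Complex.exp_add]
    congr 1
    push_cast
    ring
  rw [h4]
  push_cast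
  ring

lemma norm_g (t : ℝ) {n : ℕ} (hn : n ≠ 0) : ‖g t n‖ = (Real.sqrt n)⁻¹ := by
  rw [g_eq_exp t hn, norm_mul, Complex.norm_exp_ofReal_mul_I, mul_one, Complex.norm_real,
    Real.norm_of_nonneg (by positivity)]

lemma norm_E {x : ℕ × ℕ} (h1 : x.1 ≠ 0) (h2 : x.2 ≠ 0) (t : ℝ) :
    ‖E x t‖ = (Real.sqrt x.1)⁻¹ * (Real.sqrt x.2)⁻¹ := by
  unfold E
  rw [norm_mul, norm_star, norm_g t h1, norm_g t h2]

lemma E_diag {m : ℕ} (hm : m ≠ 0) (t : ℝ) : E (m, m) t = ((1 / m : ℝ) : ℂ) := by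
  rw [E_eq hm hm]
  have hpos : (0 : ℝ) < m := by exact_mod_cast Nat.pos_of_ne_zero hm
  simp only [sub_self, mul_zero, Complex.ofReal_zero, zero_mul, Complex.exp_zero, mul_one]
  congr 1
  rw [← mul_inv, Real.mul_self_sqrt hpos.le, one_div]

lemma E_cont {x : ℕ × ℕ} (h1 : x.1 ≠ 0) (h2 : x.2 ≠ 0) : Continuous (E x) := by
  have : E x = fun t => ((Real.sqrt x.1)⁻¹ * (Real.sqrt x.2)⁻¹ : ℝ) *
      Complex.exp ((t * (Real.log x.2 - Real.log x.1) : ℝ) * Complex.I) := funext fun t => E_eq h1 h2 t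
  rw [this]
  fun_prop

/-- the primitive of `E` -/
noncomputable def J (x : ℕ × ℕ) (A : ℝ) (t : ℝ) : ℂ := ∫ s in A..t, E x s

lemma J_self (x : ℕ × ℕ) (A : ℝ) : J x A A = 0 := intervalIntegral.integral_same

lemma J_sub {x : ℕ × ℕ} (h1 : x.1 ≠ 0) (h2 : x.2 ≠ 0) (A s t : ℝ) :
    J x A t - J x A s = ∫ r in s..t, E x r := by
  unfold J
  rw [intervalIntegral.integral_interval_sub_left ((E_cont h1 h2).intervalIntegrable _ _)
    ((E_cont h1 h2).intervalIntegrable _ _)]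

lemma norm_J_le_length {x : ℕ × ℕ} (h1 : x.1 ≠ 0) (h2 : x.2 ≠ 0) {A t : ℝ} (h : A ≤ t) :
    ‖J x A t‖ ≤ (Real.sqrt x.1)⁻¹ * (Real.sqrt x.2)⁻¹ * (t - A) := by
  unfold J
  have := intervalIntegral.norm_integral_le_of_norm_le_const (a := A) (b := t) (f := E x)
    (C := (Real.sqrt x.1)⁻¹ * (Real.sqrt x.2)⁻¹) (fun s _ => (norm_E h1 h2 s).le)
  rwa [abs_of_nonneg (by linarith)] at this

lemma norm_J_le_inv {x : ℕ × ℕ} (h1 : x.1 ≠ 0) (h2 : x.2 ≠ 0) (hne : x.1 ≠ x.2) (A t : ℝ) :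
    ‖J x A t‖ ≤ (Real.sqrt x.1)⁻¹ * (Real.sqrt x.2)⁻¹ * (2 * (max (x.1 : ℝ) x.2) / |(x.1 : ℝ) - x.2|) := by
  have p1 : (0 : ℝ) < x.1 := by exact_mod_cast Nat.pos_of_ne_zero h1
  have p2 : (0 : ℝ) < x.2 := by exact_mod_cast Nat.pos_of_ne_zero h2
  obtain ⟨lam, hlam⟩ : ∃ lam : ℝ, lam = Real.log x.2 - Real.log x.1 := ⟨_, rfl⟩
  have hneR : (x.1 : ℝ) ≠ x.2 := by exact_mod_cast hne
  have hlam0 : lam ≠ 0 := by
    rw [hlam]
    intro h
    exact hneR (Real.log_injOn_pos (Set.mem_Ioi.2 p1) (Set.mem_Ioi.2 p2) (by linarith))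
  unfold J
  have h3 : ∫ s in A..t, E x s = ((Real.sqrt x.1)⁻¹ * (Real.sqrt x.2)⁻¹ : ℝ) *
      ((Complex.exp ((t * lam : ℝ) * Complex.I) - Complex.exp ((A * lam : ℝ) * Complex.I)) / (lam * Complex.I)) := by
    rw [intervalIntegral.integral_congr (g := fun s => (((Real.sqrt x.1)⁻¹ * (Real.sqrt x.2)⁻¹ : ℝ) : ℂ) *
      Complex.exp ((lam * Complex.I) * s)) (fun s _ => by
        simp only
        rw [E_eq h1 h2, ← hlam]
        congr 2
        push_cast
        ring)]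
    rw [intervalIntegral.integral_const_mul, integral_exp_mul_complex (by
      simp [hlam0])]
    congr 3
    · congr 1
      push_cast
      ring
    · congr 1
      push_cast
      ring
  rw [h3, norm_mul, Complex.norm_real, Real.norm_of_nonneg (by positivity)]
  refine mul_le_mul_of_nonneg_left ?_ (by positivity)
  rw [norm_div, norm_mul, Complex.norm_I, mul_one, Complex.norm_real, Real.norm_eq_abs]
  have h4 : ‖Complex.exp ((t * lam : ℝ) * Complex.I) - Complex.exp ((A * lam : ℝ) * Complex.I)‖ ≤ 2 := by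
    refine (norm_sub_le _ _).trans ?_
    rw [Complex.norm_exp_ofReal_mul_I, Complex.norm_exp_ofReal_mul_I]
    norm_num
  have h5 : |(x.1 : ℝ) - x.2| / max (x.1 : ℝ) x.2 ≤ |lam| := by
    rw [hlam]
    rcases lt_or_gt_of_ne hneR with h | h
    · rw [max_eq_right h.le, abs_sub_comm, abs_of_pos (by linarith : (0 : ℝ) < x.2 - x.1),
        abs_of_pos (sub_pos.2 (Real.log_lt_log p1 h)), ← Real.log_div p2.ne' p1.ne']
      have h6 := Real.one_sub_inv_le_log_of_pos (div_pos p2 p1)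
      rw [inv_div] at h6
      refine le_trans (le_of_eq ?_) h6
      field_simp
    · rw [max_eq_left h.le, abs_of_pos (by linarith : (0 : ℝ) < x.1 - x.2), abs_sub_comm,
        abs_of_pos (sub_pos.2 (Real.log_lt_log p2 h)), ← Real.log_div p1.ne' p2.ne']
      have h6 := Real.one_sub_inv_le_log_of_pos (div_pos p1 p2)
      rw [inv_div] at h6
      refine le_trans (le_of_eq ?_) h6
      field_simp
  have h6 : 0 < |(x.1 : ℝ) - x.2| := abs_pos.2 (sub_ne_zero.2 hneR)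
  have h7 : 0 < max (x.1 : ℝ) x.2 := lt_max_of_lt_left p1
  have h8 : 0 < |lam| := abs_pos.2 hlam0
  calc _ ≤ 2 / |lam| := div_le_div_of_nonneg_right h4 h8.le
    _ ≤ 2 / (|(x.1 : ℝ) - x.2| / max (x.1 : ℝ) x.2) := div_le_div_of_nonneg_left (by norm_num) (by positivity) h5
    _ = _ := by field_simp

end Pool.Agent.Q255.RM
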