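import Pool.Agent.Q255.RM.Basic

/-!
# Mean squares of quadratic forms in a random completely multiplicative function
-/

set_option autoImplicit false

open MeasureTheory Filter Topology Finset

namespace Pool.Agent.Q255.RM

open Q289.PAM

/-- a quadratic form in `f` -/
noncomputable def Y (S : Finset (ℕ × ℕ)) (c : ℕ × ℕ → ℂ) (ω : ℕ → UnitAddCircle) : ℂ :=
  ∑ x ∈ S, c x * (f ω x.1 * star (f ω x.2))

lemma Y_cont (S : Finset (ℕ × ℕ)) (c : ℕ × ℕ → ℂ) : Continuous (Y S c) := by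
  unfold Y
  refine continuous_finsetSum _ fun x _ => ?_
  exact continuous_const.mul ((f_cont _).mul (f_cont _).star)

lemma cross_integral {a b c d : ℕ} (ha : a ≠ 0) (hb : b ≠ 0) (hc : c ≠ 0) (hd : d ≠ 0) :
    ∫ ω, (f ω a * star (f ω b)) * star (f ω c * star (f ω d)) ∂PT = if a * d = c * b then 1 else 0 := by
  have h : ∀ ω, (f ω a * star (f ω b)) * star (f ω c * star (f ω d)) =
      f ω (a * d) * star (f ω (c * b)) := by
    intro ω
    rw [f_mul ω ha hd, f_mul ω hc hb]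
    simp only [star_mul', star_star]
    ring
  simp_rw [h]
  rw [orth (mul_ne_zero ha hd) (mul_ne_zero hc hb)]

lemma bdd_integrable {g : (ℕ → UnitAddCircle) → ℂ} (hg : Continuous g) : Integrable g PT := by
  obtain ⟨C, hC⟩ := (isCompact_range hg).isBounded.exists_norm_le
  exact Integrable.of_bound hg.aestronglyMeasurable C (Eventually.of_forall fun ω => hC _ ⟨ω, rfl⟩)

lemma Y_sq (S : Finset (ℕ × ℕ)) (c : ℕ × ℕ → ℂ) (hS : ∀ x ∈ S, x.1 ≠ 0 ∧ x.2 ≠ 0) :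
    ((∫ ω, ‖Y S c ω‖ ^ 2 ∂PT : ℝ) : ℂ) =
      ∑ x ∈ S, ∑ y ∈ S, c x * star (c y) * (if x.1 * y.2 = y.1 * x.2 then 1 else 0) := by
  have h1 : ((∫ ω, ‖Y S c ω‖ ^ 2 ∂PT : ℝ) : ℂ) = ∫ ω, Y S c ω * star (Y S c ω) ∂PT := by
    rw [← integral_complex_ofReal]
    congr 1
    ext ω
    rw [Complex.star_def, Complex.mul_conj, Complex.normSq_eq_norm_sq]
  rw [h1]
  have h2 : ∀ ω, Y S c ω * star (Y S c ω) = ∑ x ∈ S, ∑ y ∈ S, (c x * star (c y)) *
      ((f ω x.1 * star (f ω x.2)) * star (f ω y.1 * star (f ω y.2))) := by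
    intro ω
    unfold Y
    rw [star_sum, Finset.sum_mul_sum]
    refine Finset.sum_congr rfl fun x _ => Finset.sum_congr rfl fun y _ => ?_
    simp only [star_mul']
    ring
  simp_rw [h2]
  have hc : ∀ x y : ℕ × ℕ, Continuous fun ω => (c x * star (c y)) *
      ((f ω x.1 * star (f ω x.2)) * star (f ω y.1 * star (f ω y.2))) := fun x y =>
    continuous_const.mul (((f_cont _).mul (f_cont _).star).mul ((f_cont _).mul (f_cont _).star).star)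
  rw [integral_finsetSum _ fun x _ => bdd_integrable (continuous_finsetSum _ fun y _ => hc x y)]
  refine Finset.sum_congr rfl fun x hx => ?_
  rw [integral_finsetSum _ fun y _ => bdd_integrable (hc x y)]
  refine Finset.sum_congr rfl fun y hy => ?_
  rw [integral_const_mul, cross_integral (hS x hx).1 (hS x hx).2 (hS y hy).1 (hS y hy).2]

lemma cross_inj {a b c d : ℕ} (ha : a ≠ 0) (hb : b ≠ 0) (hc : c ≠ 0) (hd : d ≠ 0)
    (h : a * d = c * b) (hg : Nat.gcd a b = Nat.gcd c d) : a = c ∧ b = d := by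
  obtain ⟨g, hgdef⟩ : ∃ g, g = Nat.gcd a b := ⟨_, rfl⟩
  have hg0 : 0 < g := by
    rw [hgdef]
    exact Nat.gcd_pos_of_pos_left _ (Nat.pos_of_ne_zero ha)
  obtain ⟨a', ha'⟩ : g ∣ a := by rw [hgdef]; exact Nat.gcd_dvd_left _ _
  obtain ⟨b', hb'⟩ : g ∣ b := by rw [hgdef]; exact Nat.gcd_dvd_right _ _
  obtain ⟨c', hc'⟩ : g ∣ c := by rw [hgdef, hg]; exact Nat.gcd_dvd_left _ _
  obtain ⟨d', hd'⟩ : g ∣ d := by rw [hgdef, hg]; exact Nat.gcd_dvd_right _ _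
  have h1 : Nat.Coprime a' b' := by
    have h2 : Nat.gcd (g * a') (g * b') = g := by rw [← ha', ← hb']; exact hgdef.symm
    rw [Nat.gcd_mul_left] at h2
    exact Nat.eq_of_mul_eq_mul_left hg0 (by rw [h2, mul_one])
  have h2 : Nat.Coprime c' d' := by
    have h2 : Nat.gcd (g * c') (g * d') = g := by rw [← hc', ← hd', ← hg]; exact hgdef.symm
    rw [Nat.gcd_mul_left] at h2
    exact Nat.eq_of_mul_eq_mul_left hg0 (by rw [h2, mul_one])
  have h3 : a' * d' = c' * b' := by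
    have : g * g * (a' * d') = g * g * (c' * b') := by
      calc g * g * (a' * d') = (g * a') * (g * d') := by ring
        _ = (g * c') * (g * b') := by rw [← ha', ← hb', ← hc', ← hd', h]
        _ = g * g * (c' * b') := by ring
    exact Nat.eq_of_mul_eq_mul_left (Nat.mul_pos hg0 hg0) this
  have h4 : a' ∣ c' := h1.dvd_of_dvd_mul_right (h3 ▸ Dvd.intro _ rfl)
  have h5 : c' ∣ a' := h2.dvd_of_dvd_mul_right (h3.symm ▸ Dvd.intro _ rfl)
  have h6 : a' = c' := Nat.dvd_antisymm h4 h5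
  have ha'0 : 0 < a' := by
    rcases Nat.eq_zero_or_pos a' with h0 | h0
    · exact absurd (by rw [ha', h0, mul_zero]) ha
    · exact h0
  have h7 : b' = d' := by
    rw [← h6] at h3
    exact (Nat.eq_of_mul_eq_mul_left ha'0 h3).symm
  exact ⟨by rw [ha', hc', h6], by rw [hb', hd', h7]⟩

/-- **Upper bound for the mean square.** -/
theorem second_moment_le (S : Finset (ℕ × ℕ)) (c : ℕ × ℕ → ℂ) (M : ℕ)
    (hS : ∀ x ∈ S, x.1 ≠ 0 ∧ x.2 ≠ 0 ∧ x.1 ≤ M) :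
    ∫ ω, ‖Y S c ω‖ ^ 2 ∂PT ≤ (∑ g ∈ Icc 1 M, (1 : ℝ) / g) * ∑ x ∈ S, ‖c x‖ ^ 2 * (Nat.gcd x.1 x.2 : ℝ) := by
  have h0 := Y_sq S c fun x hx => ⟨(hS x hx).1, (hS x hx).2.1⟩
  have h1 : ∫ ω, ‖Y S c ω‖ ^ 2 ∂PT ≤
      ∑ x ∈ S, ∑ y ∈ S, ‖c x‖ * ‖c y‖ * (if x.1 * y.2 = y.1 * x.2 then 1 else 0) := by
    have h2 : (∫ ω, ‖Y S c ω‖ ^ 2 ∂PT) = ‖((∫ ω, ‖Y S c ω‖ ^ 2 ∂PT : ℝ) : ℂ)‖ := by
      rw [Complex.norm_real, Real.norm_of_nonneg (integral_nonneg fun ω => by positivity)]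
    rw [h2, h0]
    refine (norm_sum_le _ _).trans (Finset.sum_le_sum fun x _ => ?_)
    refine (norm_sum_le _ _).trans (Finset.sum_le_sum fun y _ => ?_)
    rw [norm_mul, norm_mul, norm_star]
    split_ifs <;> simp
  refine h1.trans ?_
  have hgp : ∀ x ∈ S, (0 : ℝ) < Nat.gcd x.1 x.2 := fun x hx => by
    exact_mod_cast Nat.gcd_pos_of_pos_left _ (Nat.pos_of_ne_zero (hS x hx).1)
  -- weights
  have h3 : ∀ x ∈ S, ∀ y ∈ S, ‖c x‖ * ‖c y‖ * (if x.1 * y.2 = y.1 * x.2 then (1 : ℝ) else 0) ≤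
      (1 / 2) * (‖c x‖ ^ 2 * (Nat.gcd x.1 x.2 : ℝ) * ((if x.1 * y.2 = y.1 * x.2 then (1 : ℝ) else 0) / Nat.gcd y.1 y.2)) +
      (1 / 2) * (‖c y‖ ^ 2 * (Nat.gcd y.1 y.2 : ℝ) * ((if y.1 * x.2 = x.1 * y.2 then (1 : ℝ) else 0) / Nat.gcd x.1 x.2)) := by
    intro x hx y hy
    have hx' := hgp x hx
    have hy' := hgp y hy
    by_cases h : x.1 * y.2 = y.1 * x.2
    · rw [if_pos h, if_pos h.symm]
      obtain ⟨u, hu⟩ : ∃ u : ℝ, u = Nat.gcd x.1 x.2 := ⟨_, rfl⟩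
      obtain ⟨v, hv⟩ : ∃ v : ℝ, v = Nat.gcd y.1 y.2 := ⟨_, rfl⟩
      rw [← hu] at hx' ⊢
      rw [← hv] at hy' ⊢
      have h4 : (1 / 2 : ℝ) * (‖c x‖ ^ 2 * u * (1 / v)) + (1 / 2) * (‖c y‖ ^ 2 * v * (1 / u)) - ‖c x‖ * ‖c y‖ * 1 =
          (‖c x‖ * u - ‖c y‖ * v) ^ 2 / (2 * u * v) := by
        field_simp
        ring
      have h5 : 0 ≤ (‖c x‖ * u - ‖c y‖ * v) ^ 2 / (2 * u * v) := by positivity
      linarith
    · rw [if_neg h, if_neg (fun h' => h h'.symm)]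
      simp
  refine (Finset.sum_le_sum fun x hx => Finset.sum_le_sum fun y hy => h3 x hx y hy).trans ?_
  simp_rw [Finset.sum_add_distrib]
  have h6 : ∑ x ∈ S, ∑ y ∈ S, (1 / 2 : ℝ) * (‖c y‖ ^ 2 * (Nat.gcd y.1 y.2 : ℝ) *
      ((if y.1 * x.2 = x.1 * y.2 then (1 : ℝ) else 0) / Nat.gcd x.1 x.2)) =
      ∑ x ∈ S, ∑ y ∈ S, (1 / 2 : ℝ) * (‖c x‖ ^ 2 * (Nat.gcd x.1 x.2 : ℝ) *
      ((if x.1 * y.2 = y.1 * x.2 then (1 : ℝ) else 0) / Nat.gcd y.1 y.2)) := by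
    rw [Finset.sum_comm]
  rw [h6, ← two_mul, Finset.mul_sum, Finset.mul_sum]
  refine Finset.sum_le_sum fun x hx => ?_
  rw [← Finset.mul_sum, ← mul_assoc, show (2 : ℝ) * (1 / 2) = 1 by norm_num, one_mul, ← Finset.mul_sum, mul_comm]
  refine mul_le_mul_of_nonneg_right ?_ (by positivity)
  -- distinct greatest common divisors
  have h7 : ∑ y ∈ S, (if x.1 * y.2 = y.1 * x.2 then (1 : ℝ) else 0) / (Nat.gcd y.1 y.2 : ℝ) =
      ∑ y ∈ S.filter (fun y => x.1 * y.2 = y.1 * x.2), 1 / (Nat.gcd y.1 y.2 : ℝ) := by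
    rw [Finset.sum_filter]
    refine Finset.sum_congr rfl fun y _ => ?_
    split_ifs <;> simp
  rw [h7]
  have hx0 := hS x hx
  have hinj : Set.InjOn (fun y : ℕ × ℕ => Nat.gcd y.1 y.2) (S.filter (fun y => x.1 * y.2 = y.1 * x.2)) := by
    intro y hy z hz hyz
    simp only [Finset.coe_filter, Set.mem_ofPred_eq] at hy hz
    obtain ⟨hyS, hy1⟩ := hy
    obtain ⟨hzS, hz1⟩ := hz
    have hy0 := hS y hyS
    have hz0 := hS z hzS
    have h8 : y.1 * z.2 = z.1 * y.2 := by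
      have h9 : x.1 * (y.1 * z.2) = x.1 * (z.1 * y.2) := by
        calc x.1 * (y.1 * z.2) = y.1 * (x.1 * z.2) := by ring
          _ = y.1 * (z.1 * x.2) := by rw [hz1]
          _ = z.1 * (y.1 * x.2) := by ring
          _ = z.1 * (x.1 * y.2) := by rw [hy1]
          _ = x.1 * (z.1 * y.2) := by ring
      exact Nat.eq_of_mul_eq_mul_left (Nat.pos_of_ne_zero hx0.1) h9
    have h10 := cross_inj hy0.1 hy0.2.1 hz0.1 hz0.2.1 h8 hyz
    exact Prod.ext h10.1 h10.2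
  rw [← Finset.sum_image (f := fun g : ℕ => (1 : ℝ) / g) hinj]
  refine Finset.sum_le_sum_of_subset_of_nonneg ?_ fun g _ _ => by positivity
  intro g hg
  obtain ⟨y, hy, rfl⟩ := Finset.mem_image.1 hg
  have hyS := hS y (Finset.mem_filter.1 hy).1
  rw [Finset.mem_Icc]
  exact ⟨Nat.gcd_pos_of_pos_left _ (Nat.pos_of_ne_zero hyS.1),
    (Nat.gcd_le_left _ (Nat.pos_of_ne_zero hyS.1)).trans hyS.2.2⟩

end Pool.Agent.Q255.RM
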